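import Pool.Agent.R471.PP.Main
/-!
Palindromes in residue classes: a two-sided sieve, the exceptional moduli, products over primes.
-/
set_option autoImplicit false

namespace Pool.Agent.R471.PP

open Finset Filter Topology Pool.Agent.Helper112.LP
open Pool.Agent.Helper112.LP.Kba Pool.Agent.Helper112.LP.Kbh Pool.Agent.H483R2.BHKD
open Pool.Agent.H410R2.ED Pool.Agent.H141R2.FS
open Pool.Agent.Y816.PD (bh2 crt_card)
open Pool.Agent.W89.PW (pv)
open Pool.Agent.W139.PX (pv_inj_unif)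
open Pool.Agent.H623R3.PBT8 (coprime_pos)
open Pool.Agent.Y816.PS (VE VE_add VE_eq er er_nonneg cnth_bound aff_dvd n0 sg pv_sg)

open Classical in
/-- **The two-sided sieve** -/
theorem svG2 (κ w : ℕ) (hκ : 1 ≤ κ) (hκ4 : κ ≤ 2 ^ w) : ∃ c : ℕ, 1 ≤ c ∧
    ∀ (b : ℕ) (S : Finset ℕ) (X : ℝ) (ER : ℕ → ℝ),
    0 ≤ X → (∀ q, 0 ≤ ER q) →
    (∀ q h : ℕ, q.Coprime (2 * b) → |((S.filter (fun n => n % q = h % q)).card : ℝ) - X / q| ≤ ER q) →
    ∀ M : ℕ, 0 < M → M.Coprime (2 * b) → (∀ p : ℕ, p.Prime → p ∣ M → p ≤ 2 * κ) →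
    ∀ Q : ℕ → ℕ → Prop, Per Q κ → ∀ (n0 J Y : ℕ), M * (2 ^ 2 ^ J) ^ c ≤ Y →
    (X / M / 2 * (∏ l ∈ (Pr κ J).filter (fun l => ¬ l ∣ b), (1 - (nu Q l : ℝ) / l)) -
      2 ^ J * ∑ q ∈ (Icc 1 Y).filter (fun q => q.Coprime (2 * b)), (q.divisors.card : ℝ) ^ w * ER q ≤
      ((S.filter (fun n => n % M = n0 % M ∧ ∀ l ∈ Pr κ J, ¬ l ∣ b → ¬ Q l n)).card : ℝ)) ∧
    ((S.filter (fun n => n % M = n0 % M ∧ ∀ l ∈ Pr κ J, ¬ l ∣ b → ¬ Q l n)).card : ℝ) ≤
      2 * (X / M) * (∏ l ∈ (Pr κ J).filter (fun l => ¬ l ∣ b), (1 - (nu Q l : ℝ) / l)) +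
      ∑ q ∈ (Icc 1 Y).filter (fun q => q.Coprime (2 * b)), (q.divisors.card : ℝ) ^ w * ER q := by
  obtain ⟨c, hc, hbh⟩ := bh2 κ hκ
  refine ⟨c, hc, ?_⟩
  intro b S X ER hX hER hS M hM hMb hMs Q hQ n0 J Y hY
  have hPp : ∀ l ∈ Pr κ J, l.Prime := fun l hl => (mem_filter.1 hl).2.1
  have hPk : ∀ l ∈ Pr κ J, 2 * κ < l := fun l hl => (mem_filter.1 hl).2.2
  obtain ⟨f, hf⟩ : ∃ f : ℕ → ℕ, f = fun n => ∏ l ∈ (Pr κ J).filter (fun l => ¬ l ∣ b ∧ Q l n), l := ⟨_, rfl⟩
  have hfd : ∀ l ∈ Pr κ J, ∀ n, l ∣ f n ↔ (¬ l ∣ b ∧ Q l n) := by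
    intro l hl n
    rw [hf]
    simp only
    constructor
    · intro h
      obtain ⟨l', hl', hd⟩ := (Nat.Prime.prime (hPp l hl)).exists_mem_finset_dvd h
      rw [mem_filter] at hl'
      have := (Nat.prime_dvd_prime_iff_eq (hPp l hl) (hPp l' hl'.1)).1 hd
      rw [this]
      exact hl'.2
    · intro h
      exact dvd_prod_of_mem (fun l => l) (mem_filter.2 ⟨hl, h⟩)
  obtain ⟨g, hg⟩ : ∃ g : ℕ → ℝ, g = fun l => if l ∣ b then 0 else (nu Q l : ℝ) / l := ⟨_, rfl⟩
  obtain ⟨err, herr⟩ : ∃ err : Finset ℕ → ℝ, err = fun D => if ∀ l ∈ D, ¬ l ∣ b then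
      (κ : ℝ) ^ D.card * ER (M * ∏ l ∈ D, l) else 0 := ⟨_, rfl⟩
  have hmain := hbh g (by
    intro l hl hl2
    have hl0 : (0 : ℝ) < l := by exact_mod_cast hl.pos
    rw [hg]
    simp only
    split_ifs
    · exact ⟨le_rfl, by positivity⟩
    · refine ⟨by positivity, div_le_div_of_nonneg_right ?_ hl0.le⟩
      exact_mod_cast hQ.few l hl) J (S.filter (fun n => n % M = n0 % M)) f (fun _ => 1)
    (X / M) err (by positivity)
    (fun _ _ => zero_le_one) (by
      intro D
      rw [herr]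
      simp only
      split_ifs
      · exact mul_nonneg (by positivity) (hER _)
      · exact le_rfl) (by
      intro D hD _
      have hDp : ∀ l ∈ D, l.Prime := fun l hl => hPp l (hD hl)
      rw [sum_const, nsmul_eq_mul, mul_one, herr]
      simp only
      split_ifs with hDb
      · have h1 := local_gen hS M n0 hM hMb Q hQ.per D hDp (by
          intro l hl hlM
          have := hMs l (hDp l hl) hlM
          have := hPk l (hD hl)
          omega) (by
          intro l hl hd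
          rcases (Nat.Prime.dvd_mul (hDp l hl)).1 hd with h | h
          · have := Nat.le_of_dvd (by norm_num) h
            have := hPk l (hD hl)
            omega
          · exact hDb l hl h)
        have e1 : (S.filter (fun n => n % M = n0 % M)).filter (fun n => ∀ l ∈ D, l ∣ f n) =
            S.filter (fun n => n % M = n0 % M ∧ ∀ l ∈ D, Q l n) := by
          rw [filter_filter]
          apply filter_congr
          intro n _
          apply and_congr_right
          intro _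
          constructor
          · exact fun h l hl => ((hfd l (hD hl) n).1 (h l hl)).2
          · exact fun h l hl => (hfd l (hD hl) n).2 ⟨hDb l hl, h l hl⟩
        have e2 : ∏ l ∈ D, g l = ∏ l ∈ D, ((nu Q l : ℝ) / l) := by
          apply prod_congr rfl
          intro l hl
          rw [hg]
          simp only
          rw [if_neg (hDb l hl)]
        rw [e1, e2]
        refine h1.trans ?_
        apply mul_le_mul_of_nonneg_right _ (hER _)
        rw [← prod_const]
        apply prod_le_prod (fun l _ => by positivity)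
        intro l hl
        exact_mod_cast hQ.few l (hDp l hl)
      · push Not at hDb
        obtain ⟨l, hl, hlb⟩ := hDb
        have e1 : (S.filter (fun n => n % M = n0 % M)).filter (fun n => ∀ l ∈ D, l ∣ f n) = ∅ := by
          rw [filter_eq_empty_iff]
          intro n _ h
          exact ((hfd l (hD hl) n).1 (h l hl)).1 hlb
        have e2 : ∏ l ∈ D, g l = 0 := by
          apply prod_eq_zero hl
          rw [hg]
          simp only
          rw [if_pos hlb]
        rw [e1, e2]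
        simp)
  have e3 : ∑ n ∈ (S.filter (fun n => n % M = n0 % M)).filter
      (fun n => ∀ l ∈ Pr κ J, ¬ l ∣ f n), (1 : ℝ) =
      ((S.filter (fun n => n % M = n0 % M ∧ ∀ l ∈ Pr κ J, ¬ l ∣ b → ¬ Q l n)).card : ℝ) := by
    rw [sum_const, nsmul_eq_mul, mul_one, filter_filter]
    congr 2
    apply filter_congr
    intro n _
    apply and_congr_right
    intro _
    constructor
    · exact fun h l hl hlb hq => h l hl ((hfd l hl n).2 ⟨hlb, hq⟩)
    · exact fun h l hl hd => h l hl ((hfd l hl n).1 hd).1 ((hfd l hl n).1 hd).2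
  have e4 : ∏ l ∈ Pr κ J, (1 - g l) =
      ∏ l ∈ (Pr κ J).filter (fun l => ¬ l ∣ b), (1 - (nu Q l : ℝ) / l) := by
    rw [prod_filter]
    apply prod_congr rfl
    intro l _
    rw [hg]
    simp only
    split_ifs <;> simp
  rw [e3, e4] at hmain
  -- the errors
  have hEle : ∑ D ∈ (Pr κ J).powerset.filter (fun D => ∏ l ∈ D, l ≤ (2 ^ 2 ^ J) ^ c), err D ≤
      ∑ q ∈ (Icc 1 Y).filter (fun q => q.Coprime (2 * b)), (q.divisors.card : ℝ) ^ w * ER q := by
    obtain ⟨W, hW⟩ : ∃ W, W = ((Pr κ J).powerset.filter (fun D => ∏ l ∈ D, l ≤ (2 ^ 2 ^ J) ^ c)).filter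
        (fun D => ∀ l ∈ D, ¬ l ∣ b) := ⟨_, rfl⟩
    have e5 : ∑ D ∈ (Pr κ J).powerset.filter (fun D => ∏ l ∈ D, l ≤ (2 ^ 2 ^ J) ^ c), err D =
        ∑ D ∈ W, (κ : ℝ) ^ D.card * ER (M * ∏ l ∈ D, l) := by
      rw [hW, sum_filter (fun D => ∀ l ∈ D, ¬ l ∣ b), herr]
    have hWp : ∀ D ∈ W, ∀ l ∈ D, l ∈ Pr κ J := by
      intro D hD l hl
      rw [hW, mem_filter, mem_filter, mem_powerset] at hD
      exact hD.1.1 hl
    have hinj : Set.InjOn (fun D : Finset ℕ => M * ∏ l ∈ D, l) W := by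
      intro D hD D' hD' h
      simp only at h
      have h1 := Nat.eq_of_mul_eq_mul_left hM h
      rw [← Nat.primeFactors_prod (s := D) (fun l hl => hPp l (hWp D hD l hl)),
        ← Nat.primeFactors_prod (s := D') (fun l hl => hPp l (hWp D' hD' l hl)), h1]
    rw [e5]
    calc ∑ D ∈ W, (κ : ℝ) ^ D.card * ER (M * ∏ l ∈ D, l)
        ≤ ∑ D ∈ W, ((M * ∏ l ∈ D, l).divisors.card : ℝ) ^ w * ER (M * ∏ l ∈ D, l) :=
          sum_le_sum fun D hD => mul_le_mul_of_nonneg_right
            (pow_card_le_tau hκ4 hM D (fun l hl => hPp l (hWp D hD l hl))) (hER _)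
      _ = ∑ q ∈ W.image (fun D : Finset ℕ => M * ∏ l ∈ D, l), (q.divisors.card : ℝ) ^ w * ER q :=
          (sum_image (f := fun q : ℕ => (q.divisors.card : ℝ) ^ w * ER q) hinj).symm
      _ ≤ _ := by
          apply sum_le_sum_of_subset_of_nonneg
          · intro q hq
            rw [mem_image] at hq
            obtain ⟨D, hD, rfl⟩ := hq
            have hD' := hD
            rw [hW, mem_filter, mem_filter, mem_powerset] at hD'
            rw [mem_filter, mem_Icc]
            refine ⟨⟨Nat.mul_pos hM (prod_pos fun l hl => (hPp l (hWp D hD l hl)).pos), ?_⟩, ?_⟩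
            · exact (Nat.mul_le_mul_left M hD'.1.2).trans hY
            · refine Nat.Coprime.mul_left hMb (Nat.Coprime.prod_left fun l hl => ?_)
              have hlp := hPp l (hWp D hD l hl)
              refine (Nat.Prime.coprime_iff_not_dvd hlp).2 fun hd => ?_
              rcases (Nat.Prime.dvd_mul hlp).1 hd with h | h
              · have := Nat.le_of_dvd (by norm_num) h
                have := hPk l (hWp D hD l hl)
                omega
              · exact hD'.2 l hl h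
          · intro q _ _
            exact mul_nonneg (by positivity) (hER q)
  have hJ : (J : ℝ) + 1 ≤ 2 ^ J := by
    have : J + 1 ≤ 2 ^ J := Nat.lt_two_pow_self
    exact_mod_cast this
  have hR0 : 0 ≤ ∑ q ∈ (Icc 1 Y).filter (fun q => q.Coprime (2 * b)), (q.divisors.card : ℝ) ^ w * ER q :=
    sum_nonneg fun q _ => mul_nonneg (by positivity) (hER q)
  have hE0 : 0 ≤ ∑ D ∈ (Pr κ J).powerset.filter (fun D => ∏ l ∈ D, l ≤ (2 ^ 2 ^ J) ^ c), err D := by
    apply sum_nonneg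
    intro D _
    rw [herr]
    simp only
    split_ifs
    · exact mul_nonneg (by positivity) (hER _)
    · exact le_rfl
  have hEJ : ((J : ℝ) + 1) * ∑ D ∈ (Pr κ J).powerset.filter (fun D => ∏ l ∈ D, l ≤ (2 ^ 2 ^ J) ^ c), err D ≤
      2 ^ J * ∑ q ∈ (Icc 1 Y).filter (fun q => q.Coprime (2 * b)), (q.divisors.card : ℝ) ^ w * ER q :=
    mul_le_mul hJ hEle hE0 (by positivity)
  exact ⟨by linarith [hmain.1], by linarith [hmain.2]⟩


lemma VE_inj {b N L x e : ℕ} (hb : 2 ≤ b) (hN : L + 1 ≤ N) : Function.Injective (VE b N L x e) := by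
  intro m m' hm
  rw [VE_eq x e hN, VE_eq x e hN] at hm
  have h6 : sg b L m = sg b L m' :=
    Nat.eq_of_mul_eq_mul_left (by positivity) (Nat.add_left_cancel hm)
  apply pv_inj_unif hb
  rw [pv_sg, pv_sg, h6]

lemma VE_class {b N L x : ℕ} (e : ℕ) (hb : 2 ≤ b) (hN : L + 1 ≤ N) (q h : ℕ) (hq : q.Coprime (2 * b)) :
    |((((univ : Finset (Fin L → Fin b × Fin 1)).image (VE b N L x e)).filter
      (fun n => n % q = h % q)).card : ℝ) - (b : ℝ) ^ L / q| ≤ er b L q := by
  have hq0 : 0 < q := coprime_pos hq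
  obtain ⟨r, hr⟩ := aff_dvd (N := N) (L := L) (n0 b N L x - b ^ N + e * b ^ N + h * (q - 1)) hq hq0
  have h1 := cnth_bound (s := b) (t := 1) (by omega) one_pos b L q r hq
  have h2 : ((b : ℝ) * (1 : ℕ)) ^ L = (b : ℝ) ^ L := by simp
  rw [h2] at h1
  rw [filter_image, card_image_of_injective _ (VE_inj hb hN)]
  have h3 : (univ : Finset (Fin L → Fin b × Fin 1)).filter (fun m => VE b N L x e m % q = h % q) =
      univ.filter (fun m => pv b b 1 L m ≡ r [MOD q]) := by
    apply filter_congr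
    intro m _
    rw [← hr m]
    have e1 : n0 b N L x - b ^ N + e * b ^ N + h * (q - 1) + b ^ (N - L - 1) * sg b L m =
        VE b N L x e m + h * (q - 1) := by
      rw [VE_eq x e hN]
      ring
    rw [e1]
    generalize VE b N L x e m = V
    obtain ⟨k, rfl⟩ : ∃ k, q = k + 1 := ⟨q - 1, by omega⟩
    rw [Nat.add_sub_cancel]
    have e2 : h + h * k ≡ 0 [MOD k + 1] := Nat.modEq_zero_iff_dvd.2 ⟨h, by ring⟩
    constructor
    · intro h4
      have h5 : V + h * k ≡ h + h * k [MOD k + 1] := Nat.ModEq.add_right _ h4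
      exact Nat.modEq_zero_iff_dvd.1 (h5.trans e2)
    · intro h4
      have h5 : V + h * k ≡ h + h * k [MOD k + 1] := (Nat.modEq_zero_iff_dvd.2 h4).trans e2.symm
      exact Nat.ModEq.add_right_cancel' _ h5
  rw [h3]
  exact h1

/-- the palindromes with prescribed leading digits and middle digit `e` in a residue class modulo `q` -/
def SE (b N L x e q a : ℕ) : Finset ℕ :=
  ((univ : Finset (Fin L → Fin b × Fin 1)).image (VE b N L x e)).filter (fun n => n % q = a % q)

lemma SE_level {b N L x e q a : ℕ} (hb : 2 ≤ b) (hN : L + 1 ≤ N) (hq : q.Coprime (2 * b)) (r h : ℕ)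
    (hr : r.Coprime (2 * (b * q))) :
    |(((SE b N L x e q a).filter (fun n => n % r = h % r)).card : ℝ) - (b : ℝ) ^ L / q / r| ≤ er b L (q * r) := by
  have hrq : q.Coprime r := by
    have h1 : r.Coprime q := Nat.Coprime.coprime_mul_left_right (Nat.Coprime.coprime_mul_left_right hr)
    exact h1.symm
  have hrb : r.Coprime (2 * b) := by
    have h1 : r.Coprime (2 * b * q) := by rwa [← mul_assoc] at hr
    exact Nat.Coprime.coprime_mul_right_right h1
  have hqr : (q * r).Coprime (2 * b) := Nat.Coprime.mul_left hq hrb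
  obtain ⟨k, hk1, hk2⟩ := Nat.chineseRemainder hrq a h
  have h1 := VE_class (x := x) e hb hN (q * r) k hqr
  have h2 : (SE b N L x e q a).filter (fun n => n % r = h % r) =
      ((univ : Finset (Fin L → Fin b × Fin 1)).image (VE b N L x e)).filter
        (fun n => n % (q * r) = k % (q * r)) := by
    unfold SE
    rw [filter_filter]
    apply filter_congr
    intro n _
    constructor
    · rintro ⟨h3, h4⟩
      exact (Nat.modEq_and_modEq_iff_modEq_mul hrq).1 ⟨Nat.ModEq.trans h3 hk1.symm, Nat.ModEq.trans h4 hk2.symm⟩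
    · intro h3
      obtain ⟨h4, h5⟩ := (Nat.modEq_and_modEq_iff_modEq_mul hrq).2 h3
      exact ⟨Nat.ModEq.trans h4 hk1, Nat.ModEq.trans h5 hk2⟩
  rw [h2]
  push_cast at h1
  rw [div_div]
  exact h1

/-- the errors for the modulus `q` -/
noncomputable def Dl (b L Y q : ℕ) : ℝ := ∑ r ∈ (Icc 1 Y).filter (fun r => r.Coprime (2 * b)), er b L (q * r)

lemma Dl_nonneg (b L Y q : ℕ) : 0 ≤ Dl b L Y q := sum_nonneg fun _ _ => er_nonneg _ _ _

lemma double_er (b L Q Y : ℕ) : ∑ q ∈ (Icc 1 Q).filter (fun q => q.Coprime (2 * b)), Dl b L Y q ≤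
    ∑ m ∈ (Icc 1 (Q * Y)).filter (fun m => m.Coprime (2 * b)), (m.divisors.card : ℝ) ^ 1 * er b L m := by
  classical
  unfold Dl
  rw [← sum_product']
  set S := ((Icc 1 Q).filter (fun q => q.Coprime (2 * b))) ×ˢ ((Icc 1 Y).filter (fun r => r.Coprime (2 * b))) with hS
  set T := (Icc 1 (Q * Y)).filter (fun m => m.Coprime (2 * b)) with hT
  have hmaps : ∀ x ∈ S, x.1 * x.2 ∈ T := by
    intro x hx
    rw [hS, mem_product, mem_filter, mem_filter, mem_Icc, mem_Icc] at hx
    rw [hT, mem_filter, mem_Icc]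
    exact ⟨⟨Nat.mul_pos hx.1.1.1 hx.2.1.1, Nat.mul_le_mul hx.1.1.2 hx.2.1.2⟩, Nat.Coprime.mul_left hx.1.2 hx.2.2⟩
  rw [← sum_fiberwise_of_maps_to hmaps]
  refine sum_le_sum fun m hm => ?_
  have hm1 : 1 ≤ m := by
    rw [hT, mem_filter, mem_Icc] at hm
    exact hm.1.1
  have h1 : ∑ x ∈ S.filter (fun x => x.1 * x.2 = m), er b L (x.1 * x.2) =
      ((S.filter (fun x => x.1 * x.2 = m)).card : ℝ) * er b L m := by
    rw [sum_congr rfl (fun x hx => by rw [(mem_filter.1 hx).2] : ∀ x ∈ S.filter (fun x => x.1 * x.2 = m),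
      er b L (x.1 * x.2) = er b L m), sum_const, nsmul_eq_mul]
  rw [h1, pow_one]
  apply mul_le_mul_of_nonneg_right _ (er_nonneg _ _ _)
  rw [Nat.cast_le]
  apply card_le_card_of_injOn (fun x => x.1)
  · intro x hx
    rw [mem_coe, mem_filter] at hx
    rw [mem_coe, Nat.mem_divisors]
    exact ⟨⟨x.2, hx.2.symm⟩, by omega⟩
  · intro x hx y hy h
    rw [mem_coe, mem_filter] at hx hy
    simp only at h
    have h2 : x.1 * x.2 = x.1 * y.2 := by
      rw [hx.2, h, hy.2]
    have h3 : 0 < x.1 := by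
      have := hx.1
      rw [hS, mem_product, mem_filter, mem_Icc] at this
      exact this.1.1.1
    exact Prod.ext h (Nat.eq_of_mul_eq_mul_left h3 h2)

/-- the exceptional moduli -/
theorem exc {b : ℕ} (hb : 2 ≤ b) (A : ℕ) : ∀ᶠ L : ℕ in atTop, ∃ E : Finset ℕ,
    (E.card : ℝ) * (L : ℝ) ^ A ≤ (b : ℝ) ^ (L / 5) ∧ (∀ q ∈ E, (L : ℝ) ^ A < q) ∧
    ∀ q : ℕ, q ≤ b ^ (L / 5) → q.Coprime (2 * b) → q ∉ E →
      Dl b L (b ^ (L / 4)) q ≤ (b : ℝ) ^ L / (q * (L : ℝ) ^ 3) := by
  classical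
  have hbR : (2 : ℝ) ≤ b := by exact_mod_cast hb
  have hb0 : (0 : ℝ) < b := by linarith
  filter_upwards [er_finalK 1 hb (A + 3), eventually_ge_atTop 1] with L hL hL1
  have hL0 : (0 : ℝ) < L := by exact_mod_cast hL1
  set Y := b ^ (L / 4) with hY
  set Q := b ^ (L / 5) with hQ
  have hQY : Q * Y ≤ ⌊(b : ℝ) ^ ((49 / 100 : ℝ) * L)⌋₊ := by
    apply Nat.le_floor
    rw [hQ, hY]
    push_cast
    rw [← pow_add, ← Real.rpow_natCast]
    apply Real.rpow_le_rpow_of_exponent_le (by linarith)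
    push_cast
    have h1 : ((L / 4 : ℕ) : ℝ) ≤ (L : ℝ) / 4 := Nat.cast_div_le
    have h2 : ((L / 5 : ℕ) : ℝ) ≤ (L : ℝ) / 5 := Nat.cast_div_le
    linarith
  have hsum : ∑ q ∈ (Icc 1 Q).filter (fun q => q.Coprime (2 * b)), Dl b L Y q ≤ (b : ℝ) ^ L / (L : ℝ) ^ (A + 3) := by
    refine (double_er b L Q Y).trans (le_trans ?_ hL)
    apply sum_le_sum_of_subset_of_nonneg
    · intro m hm
      rw [mem_filter, mem_Icc] at hm ⊢
      exact ⟨⟨hm.1.1, hm.1.2.trans hQY⟩, hm.2⟩
    · intro m _ _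
      exact mul_nonneg (by positivity) (er_nonneg _ _ _)
  have hq0 : ∀ q : ℕ, q.Coprime (2 * b) → (0 : ℝ) < q := fun q hq => by exact_mod_cast coprime_pos hq
  refine ⟨(Icc 1 Q).filter (fun q => q.Coprime (2 * b) ∧ (b : ℝ) ^ L / (q * (L : ℝ) ^ 3) < Dl b L Y q), ?_, ?_, ?_⟩
  · have h1 : ∀ q ∈ (Icc 1 Q).filter (fun q => q.Coprime (2 * b) ∧ (b : ℝ) ^ L / (q * (L : ℝ) ^ 3) < Dl b L Y q),
        (b : ℝ) ^ L / ((b : ℝ) ^ (L / 5) * (L : ℝ) ^ 3) ≤ Dl b L Y q := by
      intro q hq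
      rw [mem_filter, mem_Icc] at hq
      refine le_trans ?_ hq.2.2.le
      have h2 := hq0 q hq.2.1
      apply div_le_div_of_nonneg_left (by positivity) (by positivity)
      apply mul_le_mul_of_nonneg_right _ (by positivity)
      have h3 := hq.1.2
      rw [hQ] at h3
      exact_mod_cast h3
    have h2 := card_nsmul_le_sum _ _ _ h1
    rw [nsmul_eq_mul] at h2
    have h3 : ∑ q ∈ (Icc 1 Q).filter (fun q => q.Coprime (2 * b) ∧ (b : ℝ) ^ L / (q * (L : ℝ) ^ 3) < Dl b L Y q),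
        Dl b L Y q ≤ (b : ℝ) ^ L / (L : ℝ) ^ (A + 3) := by
      refine le_trans ?_ hsum
      apply sum_le_sum_of_subset_of_nonneg
      · intro q hq
        rw [mem_filter] at hq ⊢
        exact ⟨hq.1, hq.2.1⟩
      · intro q _ _
        exact Dl_nonneg _ _ _ _
    have h4 := h2.trans h3
    set k : ℝ := (((Icc 1 Q).filter (fun q => q.Coprime (2 * b) ∧
      (b : ℝ) ^ L / (q * (L : ℝ) ^ 3) < Dl b L Y q)).card : ℝ) with hk
    have hk0 : 0 ≤ k := Nat.cast_nonneg _
    rw [pow_add, mul_div_assoc', div_le_div_iff₀ (by positivity) (by positivity)] at h4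
    have h5 : (k * (L : ℝ) ^ A) * ((b : ℝ) ^ L * (L : ℝ) ^ 3) ≤
        (b : ℝ) ^ (L / 5) * ((b : ℝ) ^ L * (L : ℝ) ^ 3) := by nlinarith [h4]
    exact le_of_mul_le_mul_right h5 (by positivity)
  · intro q hq
    rw [mem_filter, mem_Icc] at hq
    have h2 := hq0 q hq.2.1
    have h3 : Dl b L Y q ≤ (b : ℝ) ^ L / (L : ℝ) ^ (A + 3) := by
      refine le_trans ?_ hsum
      exact single_le_sum (f := fun q => Dl b L Y q) (fun q _ => Dl_nonneg _ _ _ _)
        (mem_filter.2 ⟨mem_Icc.2 hq.1, hq.2.1⟩)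
    have h4 := hq.2.2.trans_le h3
    rw [div_lt_div_iff_of_pos_left (by positivity) (by positivity) (by positivity), pow_add] at h4
    exact lt_of_mul_lt_mul_right h4 (by positivity)
  · intro q hqQ hqc hqE
    by_contra hcon
    push Not at hcon
    apply hqE
    rw [mem_filter, mem_Icc]
    exact ⟨⟨coprime_pos hqc, hqQ⟩, hqc, hcon⟩

end Pool.Agent.R471.PP
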