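import Pool.Agent.R471.PP.Cls
/-!
Palindromes in residue classes: the products over primes and the main theorem.
-/
set_option autoImplicit false

namespace Pool.Agent.R471.PP

open Finset Filter Topology Pool.Agent.Helper112.LP
open Pool.Agent.H410R2.ED (Pr)
open Pool.Agent.H623R3.PBT8 (coprime_pos)
open Pool.Agent.Y816.PS (VV VV_lt VV_pal VV_div VV_cop VE VE_add VE_surj er er_nonneg)

/-- the divisibility condition -/
def Dv (l n : ℕ) : Prop := l ∣ n

lemma nu_Dv {p : ℕ} (hp : p.Prime) : nu Dv p = 1 := by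
  classical
  unfold nu
  have h1 : (range p).filter (fun r => Dv p r) = {0} := by
    ext r
    rw [mem_filter, mem_range, mem_singleton]
    unfold Dv
    constructor
    · rintro ⟨h1, h2⟩
      exact Nat.eq_zero_of_dvd_of_lt h2 h1
    · rintro rfl
      exact ⟨hp.pos, dvd_zero _⟩
  have h2 : ((range p).filter (fun r => Dv p r)).card = 1 := by rw [h1, card_singleton]
  convert h2

lemma Per_Dv : Per Dv 1 :=
  ⟨fun p n => by unfold Dv; exact (Nat.dvd_mod_iff (dvd_refl p)).symm, fun p hp => (nu_Dv hp).le⟩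

/-- the product over the sifting primes prime to `b q` -/
noncomputable def Pq (b q J : ℕ) : ℝ := ∏ l ∈ (Pr 1 J).filter (fun l => ¬ l ∣ b * q), (1 - (nu Dv l : ℝ) / l)

lemma Pq_eq (b q J : ℕ) : Pq b q J =
    ∏ l ∈ ((range (2 ^ 2 ^ J)).filter Nat.Prime).filter (fun l => ¬ l ∣ 2 * (b * q)), (1 - (1 : ℝ) / l) := by
  unfold Pq
  have h1 : (Pr 1 J).filter (fun l => ¬ l ∣ b * q) =
      ((range (2 ^ 2 ^ J)).filter Nat.Prime).filter (fun l => ¬ l ∣ 2 * (b * q)) := by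
    ext l
    unfold Pr
    simp only [mem_filter, mem_range]
    constructor
    · rintro ⟨⟨h1, h2, h3⟩, h4⟩
      refine ⟨⟨h1, h2⟩, fun h => ?_⟩
      rcases (Nat.Prime.dvd_mul h2).1 h with h5 | h5
      · have := Nat.le_of_dvd (by norm_num) h5
        omega
      · exact h4 h5
    · rintro ⟨⟨h1, h2⟩, h3⟩
      refine ⟨⟨h1, h2, ?_⟩, fun h => h3 (h.mul_left 2)⟩
      have := h2.two_le
      rcases Nat.lt_or_ge 2 l with h4 | h4
      · omega
      · exfalso
        apply h3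
        rw [show l = 2 by omega]
        exact dvd_mul_right _ _
  rw [h1]
  apply prod_congr rfl
  intro l hl
  rw [nu_Dv (mem_filter.1 (mem_filter.1 hl).1).2]
  simp

lemma f_pos {l : ℕ} (hl : l.Prime) : (0 : ℝ) < 1 - 1 / l := by
  have h0 : (1 : ℝ) < l := by exact_mod_cast hl.one_lt
  rw [sub_pos, div_lt_one (by linarith)]
  exact h0

lemma f_half {l : ℕ} (hl : l.Prime) : (1 / 2 : ℝ) ≤ 1 - 1 / l := by
  have h0 : (2 : ℝ) ≤ l := by exact_mod_cast hl.two_le
  have : (1 : ℝ) / l ≤ 1 / 2 := div_le_div_of_nonneg_left (by norm_num) (by norm_num) h0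
  linarith

lemma f_le {l : ℕ} : (1 : ℝ) - 1 / l ≤ 1 := by
  have : (0 : ℝ) ≤ 1 / l := by positivity
  linarith

lemma tot_prod {n : ℕ} (hn : 0 < n) : ∏ l ∈ n.primeFactors, (1 - (1 : ℝ) / l) = (n.totient : ℝ) / n := by
  have h1 := Nat.totient_eq_mul_prod_factors n
  have h2 : (n.totient : ℝ) = n * ∏ p ∈ n.primeFactors, (1 - (p : ℝ)⁻¹) := by
    have h3 := congrArg (fun t : ℚ => (t : ℝ)) h1
    push_cast at h3
    exact h3
  have hn0 : (0 : ℝ) < n := by exact_mod_cast hn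
  rw [h2, mul_div_assoc, mul_comm, div_mul_cancel₀ _ hn0.ne']
  apply prod_congr rfl
  intro l _
  rw [one_div]

lemma Pq_bounds {b q J E : ℕ} (hb : 2 ≤ b) (hq : q.Coprime (2 * b)) (hE : q < (2 ^ 2 ^ J) ^ E) :
    Pq b q J * ((q.totient : ℝ) / q) ≤ 2 * b * ∏ l ∈ (range (2 ^ 2 ^ J)).filter Nat.Prime, (1 - (1 : ℝ) / l) ∧
    (1 / 2 : ℝ) ^ E * ∏ l ∈ (range (2 ^ 2 ^ J)).filter Nat.Prime, (1 - (1 : ℝ) / l) ≤
      Pq b q J * ((q.totient : ℝ) / q) := by
  classical
  have hq0 : 0 < q := coprime_pos hq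
  set U := (range (2 ^ 2 ^ J)).filter Nat.Prime with hU
  have hUp : ∀ l ∈ U, l.Prime := fun l hl => (mem_filter.1 hl).2
  have hsplit := prod_filter_mul_prod_filter_not U (fun l => l ∣ 2 * (b * q)) (fun l : ℕ => (1 - (1 : ℝ) / l))
  rw [Pq_eq, ← hU, ← hsplit]
  set P := ∏ l ∈ U.filter (fun l => ¬ l ∣ 2 * (b * q)), (1 - (1 : ℝ) / l) with hP
  have hP0 : 0 < P := prod_pos fun l hl => f_pos (hUp l (mem_filter.1 hl).1)
  set R := ∏ l ∈ U.filter (fun l => l ∣ 2 * (b * q)), (1 - (1 : ℝ) / l) with hR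
  have hq0R : (0 : ℝ) < q := by exact_mod_cast hq0
  have hb0R : (0 : ℝ) < b := by exact_mod_cast (by omega : 0 < b)
  constructor
  · -- `R ≥ φ(2bq)/(2bq)`
    have h1 : (((2 * b * q).totient : ℕ) : ℝ) / ((2 * b * q : ℕ) : ℝ) ≤ R := by
      rw [← tot_prod (by positivity)]
      have hsub : U.filter (fun l => l ∣ 2 * (b * q)) ⊆ (2 * b * q).primeFactors := by
        intro l hl
        rw [mem_filter] at hl
        rw [Nat.mem_primeFactors]
        refine ⟨hUp l hl.1, by rw [mul_assoc]; exact hl.2, by positivity⟩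
      rw [hR, ← prod_sdiff hsub]
      have h2 : ∏ l ∈ (2 * b * q).primeFactors \ U.filter (fun l => l ∣ 2 * (b * q)), (1 - (1 : ℝ) / l) ≤ 1 := by
        apply prod_le_one
        · intro l hl
          exact (f_pos (Nat.prime_of_mem_primeFactors (mem_sdiff.1 hl).1)).le
        · intro l _
          exact f_le
      have h3 : 0 ≤ ∏ l ∈ U.filter (fun l => l ∣ 2 * (b * q)), (1 - (1 : ℝ) / l) :=
        prod_nonneg fun l hl => (f_pos (hUp l (mem_filter.1 hl).1)).le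
      calc _ ≤ 1 * ∏ l ∈ U.filter (fun l => l ∣ 2 * (b * q)), (1 - (1 : ℝ) / l) :=
            mul_le_mul_of_nonneg_right h2 h3
        _ = _ := one_mul _
    have h2 : (2 * b * q).totient = (2 * b).totient * q.totient := Nat.totient_mul hq.symm
    have h3 : 1 ≤ (2 * b).totient := Nat.totient_pos.2 (by positivity)
    have h4 : (q.totient : ℝ) / (2 * b * q) ≤ R := by
      refine le_trans ?_ h1
      rw [h2]
      push_cast
      apply div_le_div_of_nonneg_right _ (by positivity)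
      have h5 : (1 : ℝ) ≤ ((2 * b).totient : ℝ) := by exact_mod_cast h3
      nlinarith [(Nat.cast_nonneg q.totient : (0 : ℝ) ≤ (q.totient : ℝ))]
    have h5 : (q.totient : ℝ) / q = 2 * b * ((q.totient : ℝ) / (2 * b * q)) := by
      field_simp
    rw [h5]
    calc P * (2 * b * ((q.totient : ℝ) / (2 * b * q))) = (2 * b * P) * ((q.totient : ℝ) / (2 * b * q)) := by ring
      _ ≤ (2 * b * P) * R := mul_le_mul_of_nonneg_left h4 (by positivity)
      _ = _ := by ring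
  · rw [← tot_prod hq0]
    have hs := prod_filter_mul_prod_filter_not q.primeFactors (fun l => l < 2 ^ 2 ^ J)
      (fun l : ℕ => (1 - (1 : ℝ) / l))
    rw [← hs]
    have hsub : q.primeFactors.filter (fun l => l < 2 ^ 2 ^ J) ⊆ U.filter (fun l => l ∣ 2 * (b * q)) := by
      intro l hl
      rw [mem_filter, Nat.mem_primeFactors] at hl
      rw [mem_filter, hU, mem_filter, mem_range]
      exact ⟨⟨hl.2, hl.1.1⟩, by rw [← mul_assoc]; exact hl.1.2.1.mul_left _⟩
    have h1 : R ≤ ∏ l ∈ q.primeFactors.filter (fun l => l < 2 ^ 2 ^ J), (1 - (1 : ℝ) / l) := by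
      rw [hR, ← prod_sdiff hsub]
      have h2 : ∏ l ∈ (U.filter (fun l => l ∣ 2 * (b * q))) \ q.primeFactors.filter (fun l => l < 2 ^ 2 ^ J),
          (1 - (1 : ℝ) / l) ≤ 1 := by
        apply prod_le_one
        · intro l hl
          exact (f_pos (hUp l (mem_filter.1 (mem_sdiff.1 hl).1).1)).le
        · intro l _
          exact f_le
      have h3 : 0 ≤ ∏ l ∈ q.primeFactors.filter (fun l => l < 2 ^ 2 ^ J), (1 - (1 : ℝ) / l) :=
        prod_nonneg fun l hl => (f_pos (Nat.prime_of_mem_primeFactors (mem_filter.1 hl).1)).le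
      calc _ ≤ 1 * ∏ l ∈ q.primeFactors.filter (fun l => l < 2 ^ 2 ^ J), (1 - (1 : ℝ) / l) :=
            mul_le_mul_of_nonneg_right h2 h3
        _ = _ := one_mul _
    have hcard : (q.primeFactors.filter (fun l => ¬ l < 2 ^ 2 ^ J)).card ≤ E := by
      by_contra hcon0
      have hcon := not_le.1 hcon0
      have h2 : (2 ^ 2 ^ J) ^ (q.primeFactors.filter (fun l => ¬ l < 2 ^ 2 ^ J)).card ≤
          ∏ l ∈ q.primeFactors.filter (fun l => ¬ l < 2 ^ 2 ^ J), l := by
        rw [← prod_const]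
        apply prod_le_prod' 
        intro l hl
        exact not_lt.1 (mem_filter.1 hl).2
      have h3 : ∏ l ∈ q.primeFactors.filter (fun l => ¬ l < 2 ^ 2 ^ J), l ∣ ∏ l ∈ q.primeFactors, l :=
        prod_dvd_prod_of_subset _ _ _ (filter_subset _ _)
      have h4 := Nat.le_of_dvd hq0 (h3.trans (Nat.prod_primeFactors_dvd q))
      have h5 : (2 ^ 2 ^ J) ^ E ≤ (2 ^ 2 ^ J) ^ (q.primeFactors.filter (fun l => ¬ l < 2 ^ 2 ^ J)).card :=
        Nat.pow_le_pow_right (by positivity) hcon.le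
      omega
    have h2 : (1 / 2 : ℝ) ^ E ≤ ∏ l ∈ q.primeFactors.filter (fun l => ¬ l < 2 ^ 2 ^ J), (1 - (1 : ℝ) / l) := by
      calc (1 / 2 : ℝ) ^ E ≤ (1 / 2 : ℝ) ^ (q.primeFactors.filter (fun l => ¬ l < 2 ^ 2 ^ J)).card :=
            pow_le_pow_of_le_one (by norm_num) (by norm_num) hcard
        _ = ∏ _l ∈ q.primeFactors.filter (fun l => ¬ l < 2 ^ 2 ^ J), (1 / 2 : ℝ) := by rw [prod_const]
        _ ≤ _ := by
            apply prod_le_prod (fun _ _ => by norm_num)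
            intro l hl
            exact f_half (Nat.prime_of_mem_primeFactors (mem_filter.1 hl).1)
    have hR0 : 0 ≤ R := prod_nonneg fun l hl => (f_pos (hUp l (mem_filter.1 hl).1)).le
    have h3 := mul_le_mul h2 h1 hR0 (le_trans (by positivity) h2)
    calc (1 / 2 : ℝ) ^ E * (R * P) = ((1 / 2 : ℝ) ^ E * R) * P := by ring
      _ ≤ ((∏ l ∈ q.primeFactors.filter (fun l => ¬ l < 2 ^ 2 ^ J), (1 - (1 : ℝ) / l)) *
          ∏ l ∈ q.primeFactors.filter (fun l => l < 2 ^ 2 ^ J), (1 - (1 : ℝ) / l)) * P :=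
          mul_le_mul_of_nonneg_right h3 hP0.le
      _ = _ := by ring

lemma VE_one (b N L x : ℕ) (m : Fin L → Fin b × Fin 1) : VE b N L x 1 m = VV b N L x m := by
  have h := VE_add b N L x 1 m
  omega

/-- the palindromes with `2N+1` digits, prescribed leading digits and few prime factors in a residue class -/
def RC (b N L x q a B : ℕ) : Set ℕ := {n | n < b ^ (2 * N + 1) ∧ (Nat.digits b n).reverse = Nat.digits b n ∧
  n / b ^ (N + L + 1) = x / b ^ (N + L + 1) ∧ n ≡ a [MOD q] ∧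
  (∀ p : ℕ, p.Prime → p ∣ n → b ^ L < p ^ B) ∧ n.primeFactorsList.length * L ≤ B * (2 * N + 1)}

lemma RC_fin (b N L x q a B : ℕ) : (RC b N L x q a B).Finite :=
  (Set.finite_lt_nat (b ^ (2 * N + 1))).subset fun _ hn => hn.1

/-- the sieved set -/
noncomputable def FE (b N L x e q a J : ℕ) : Finset ℕ := by
  classical
  exact (SE b N L x e q a).filter (fun n => n % 1 = 0 % 1 ∧ ∀ l ∈ Pr 1 J, ¬ l ∣ b * q → ¬ Dv l n)

lemma FE_low {b N L x q a J c : ℕ} (hb : 2 ≤ b) (hN : L + 1 ≤ N) (h1 : b ^ (2 * N) ≤ x) (h2 : x < b ^ (2 * N + 1))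
    (hc : (x / b ^ (2 * N)).Coprime b) (ha : a.Coprime q) (hJ : b ^ L ≤ (2 ^ 2 ^ J) ^ (64 * c)) :
    (FE b N L x 1 q a J : Set ℕ) ⊆ RC b N L x q a (64 * c + 1) := by
  classical
  intro n hn
  unfold FE SE at hn
  rw [mem_coe, mem_filter, mem_filter, mem_image] at hn
  obtain ⟨⟨⟨m, _, rfl⟩, g1⟩, -, g2⟩ := hn
  rw [VE_one] at g1 g2 ⊢
  have hcop := VV_cop hb hN h2 hc m
  have hcq : (VV b N L x m).Coprime q := by
    have g3 : (VV b N L x m).gcd q = a.gcd q := Nat.ModEq.gcd_eq g1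
    exact g3.trans ha
  have hlt : VV b N L x m < b ^ (2 * N + 1) := VV_lt hb m
  have hp : ∀ p : ℕ, p.Prime → p ∣ VV b N L x m → b ^ L < p ^ (64 * c + 1) := by
    intro p hp hd
    have hp2b : ¬ p ∣ 2 * b := fun h => Nat.Prime.one_lt hp |>.ne' (Nat.dvd_one.1 (hcop ▸ Nat.dvd_gcd hd h))
    have hpq : ¬ p ∣ q := fun h => Nat.Prime.one_lt hp |>.ne' (Nat.dvd_one.1 (hcq ▸ Nat.dvd_gcd hd h))
    have hz : 2 ^ 2 ^ J ≤ p := by
      by_contra hcon
      push Not at hcon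
      refine g2 p ?_ ?_ hd
      · unfold Pr
        rw [mem_filter, mem_range]
        refine ⟨hcon, hp, ?_⟩
        have := hp.two_le
        rcases Nat.lt_or_ge 2 p with h4 | h4
        · omega
        · exfalso
          apply hp2b
          rw [show p = 2 by omega]
          exact dvd_mul_right _ _
      · intro h
        rcases (Nat.Prime.dvd_mul hp).1 h with h | h
        · exact hp2b (h.mul_left 2)
        · exact hpq h
    calc b ^ L ≤ (2 ^ 2 ^ J) ^ (64 * c) := hJ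
      _ ≤ p ^ (64 * c) := Nat.pow_le_pow_left hz _
      _ < p ^ (64 * c + 1) := Nat.pow_lt_pow_right hp.one_lt (by omega)
  have hdiv := VV_div hb hN h2 m
  have hV0 : VV b N L x m ≠ 0 := by
    intro h0
    rw [h0, Nat.zero_div] at hdiv
    have e1 : b ^ (N - L - 1) ≤ x / b ^ (N + L + 1) := by
      rw [Nat.le_div_iff_mul_le (by positivity), ← pow_add]
      rwa [show N - L - 1 + (N + L + 1) = 2 * N by omega]
    have : 0 < b ^ (N - L - 1) := by positivity
    omega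
  refine ⟨hlt, VV_pal hb hN h2 h1 m, hdiv, g1, hp, ?_⟩
  exact few_of hb (by omega) hV0 hlt fun p hpm =>
    hp p (Nat.prime_of_mem_primeFactorsList hpm) (Nat.dvd_of_mem_primeFactorsList hpm)

lemma FE_up {b N L x q a J B : ℕ} (hb : 2 ≤ b) (hN : L + 1 ≤ N) (h1 : b ^ (2 * N) ≤ x)
    (hJ : (2 ^ 2 ^ J) ^ (4 * B) ≤ b ^ (L / 4)) :
    RC b N L x q a B ⊆ ((range b).biUnion (fun e => FE b N L x e q a J) : Finset ℕ) := by
  classical
  intro n hn
  obtain ⟨g1, g2, g3, g4, g5, g6⟩ := hn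
  have g7 : b ^ (2 * N) ≤ n := by
    have e1 : b ^ (N - L - 1) ≤ x / b ^ (N + L + 1) := by
      rw [Nat.le_div_iff_mul_le (by positivity), ← pow_add]
      rwa [show N - L - 1 + (N + L + 1) = 2 * N by omega]
    rw [← g3, Nat.le_div_iff_mul_le (by positivity), ← pow_add,
      show N - L - 1 + (N + L + 1) = 2 * N by omega] at e1
    exact e1
  have g8 := VE_surj hb g7 g1 g2 g3
  rw [mem_coe, mem_biUnion]
  refine ⟨n / b ^ N % b, mem_range.2 (Nat.mod_lt _ (by omega)), ?_⟩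
  unfold FE SE
  rw [mem_filter, mem_filter, mem_image]
  refine ⟨⟨⟨_, mem_univ _, g8.symm⟩, g4⟩, by omega, ?_⟩
  intro l hl _ hd
  unfold Pr at hl
  rw [mem_filter, mem_range] at hl
  have h2 := g5 l hl.2.1 hd
  have h3 : l ^ B ≤ (2 ^ 2 ^ J) ^ B := Nat.pow_le_pow_left hl.1.le _
  have h4 : (2 ^ 2 ^ J) ^ B ≤ (2 ^ 2 ^ J) ^ (4 * B) := Nat.pow_le_pow_right (by positivity) (by omega)
  have h5 : b ^ (L / 4) ≤ b ^ L := Nat.pow_le_pow_right (by omega) (Nat.div_le_self _ _)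
  omega

/-- **Palindromes with few prime factors in residue classes.** -/
theorem classes {b : ℕ} (hb : 2 ≤ b) (A : ℕ) : ∃ c C : ℝ, 0 < c ∧ 0 < C ∧ ∃ B L₀ : ℕ, 1 ≤ B ∧ ∀ L : ℕ, L₀ ≤ L →
    ∃ E : Finset ℕ, (E.card : ℝ) * (L : ℝ) ^ A ≤ (b : ℝ) ^ (L / 5) ∧ (∀ q ∈ E, (L : ℝ) ^ A < q) ∧
    ∀ q : ℕ, q ≤ b ^ (L / 5) → q.Coprime (2 * b) → q ∉ E → ∀ a : ℕ, a.Coprime q →
    ∀ N x : ℕ, L < N → b ^ (2 * N) ≤ x → x < b ^ (2 * N + 1) →
    ((RC b N L x q a B).ncard : ℝ) ≤ C * (b : ℝ) ^ L / (q.totient * L) ∧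
    ((x / b ^ (2 * N)).Coprime b → c * (b : ℝ) ^ L / (q.totient * L) ≤ ((RC b N L x q a B).ncard : ℝ)) := by
  classical
  obtain ⟨c, hc, hsv⟩ := svG2 1 0 le_rfl (by norm_num)
  obtain ⟨c1, C1, hc1, hC1, hmer⟩ := mertens_prod
  obtain ⟨B, hB⟩ : ∃ B, B = 64 * c + 1 := ⟨_, rfl⟩
  have hbR : (2 : ℝ) ≤ b := by exact_mod_cast hb
  have hb0 : (0 : ℝ) < b := by linarith
  obtain ⟨c0, hc0⟩ : ∃ c0 : ℝ, c0 = (1 / 2) ^ B * c1 / (4 * b) := ⟨_, rfl⟩
  have hc00 : 0 < c0 := by rw [hc0]; positivity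
  obtain ⟨C0, hC0⟩ : ∃ C0 : ℝ, C0 = 256 * b * C1 * B + 1 := ⟨_, rfl⟩
  have hC00 : 0 < C0 := by rw [hC0]; positivity
  have e2 : ∀ᶠ L : ℕ in atTop, 128 * (16 * B) ≤ L := eventually_ge_atTop _
  have e3 : ∀ᶠ L : ℕ in atTop, b / c0 ≤ (L : ℝ) := tendsto_natCast_atTop_atTop.eventually_ge_atTop _
  obtain ⟨L0, hL0⟩ := eventually_atTop.1 ((exc hb A).and (e2.and e3))
  refine ⟨c0, b * C0, hc00, by positivity, B, L0, by omega, fun L hL => ?_⟩
  obtain ⟨⟨E, hE1, hE2, hE3⟩, f2, f3⟩ := hL0 L hL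
  refine ⟨E, hE1, hE2, fun q hq hqc hqE a ha N x hN h1 h2 => ?_⟩
  have hL1 : 1 ≤ L := by omega
  have hL1R : (1 : ℝ) ≤ L := by exact_mod_cast hL1
  have hLpos : (0 : ℝ) < L := by linarith
  have hq0 : 0 < q := coprime_pos hqc
  have hq0R : (0 : ℝ) < q := by exact_mod_cast hq0
  have hφ0 : (0 : ℝ) < q.totient := by exact_mod_cast Nat.totient_pos.2 hq0
  have hφq : (q.totient : ℝ) ≤ q := by exact_mod_cast Nat.totient_le q
  have hD := hE3 q hq hqc hqE
  -- the sieve for every middle digit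
  have hsieve : ∀ e J : ℕ, 1 * (2 ^ 2 ^ J) ^ c ≤ b ^ (L / 4) →
      (b : ℝ) ^ L / q / 2 * Pq b q J - 2 ^ J * Dl b L (b ^ (L / 4)) q ≤ ((FE b N L x e q a J).card : ℝ) ∧
      ((FE b N L x e q a J).card : ℝ) ≤ 2 * ((b : ℝ) ^ L / q) * Pq b q J + Dl b L (b ^ (L / 4)) q := by
    intro e J hJ
    have h := hsv (b * q) (SE b N L x e q a) ((b : ℝ) ^ L / q) (fun r => er b L (q * r)) (by positivity)
      (fun r => er_nonneg _ _ _) (fun r h hr => SE_level hb hN hqc r h hr) 1 one_pos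
      (Nat.coprime_one_left _) (fun p hp hd => absurd (Nat.dvd_one.1 hd) hp.one_lt.ne') Dv Per_Dv 0 J
      (b ^ (L / 4)) hJ
    rw [Nat.cast_one, div_one] at h
    have hEr : ∑ r ∈ (Icc 1 (b ^ (L / 4))).filter (fun r => r.Coprime (2 * (b * q))),
        (r.divisors.card : ℝ) ^ 0 * er b L (q * r) ≤ Dl b L (b ^ (L / 4)) q := by
      unfold Dl
      simp only [pow_zero, one_mul]
      apply sum_le_sum_of_subset_of_nonneg
      · intro r hr
        rw [mem_filter] at hr ⊢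
        refine ⟨hr.1, ?_⟩
        have h1 : r.Coprime (2 * b * q) := by
          have := hr.2
          rwa [← mul_assoc] at this
        exact Nat.Coprime.coprime_mul_right_right h1
      · intro r _ _
        exact er_nonneg _ _ _
    have hP : ∏ l ∈ (Pr 1 J).filter (fun l => ¬ l ∣ b * q), (1 - (nu Dv l : ℝ) / l) = Pq b q J := rfl
    rw [hP] at h
    have hF : (SE b N L x e q a).filter (fun n => n % 1 = 0 % 1 ∧ ∀ l ∈ Pr 1 J, ¬ l ∣ b * q → ¬ Dv l n) =
        FE b N L x e q a J := by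
      unfold FE
      congr
    have h2J : (0 : ℝ) ≤ 2 ^ J := by positivity
    have h3 := mul_le_mul_of_nonneg_left hEr h2J
    obtain ⟨ha, hb'⟩ := h
    rw [← hF]
    constructor
    · refine le_trans ?_ (ha.trans (le_of_eq ?_))
      · linarith
      · congr
    · refine le_trans (le_of_eq ?_) (hb'.trans ?_)
      · congr
      · linarith
  have hqL : q ≤ b ^ L := hq.trans (Nat.pow_le_pow_right (by omega) (Nat.div_le_self _ _))
  -- `q φ(q)⁻¹`
  have hXP : ∀ J : ℕ, (b : ℝ) ^ L / q * Pq b q J = (b : ℝ) ^ L / q.totient * (Pq b q J * (q.totient / q)) := by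
    intro J
    field_simp
  have hDφ : Dl b L (b ^ (L / 4)) q ≤ (b : ℝ) ^ L / q.totient / (L : ℝ) ^ 3 := by
    refine hD.trans ?_
    rw [← div_div]
    apply div_le_div_of_nonneg_right _ (by positivity)
    exact div_le_div_of_nonneg_left (by positivity) hφ0 hφq
  obtain ⟨X, hX⟩ : ∃ X : ℝ, X = (b : ℝ) ^ L / q.totient := ⟨_, rfl⟩
  have hX0 : 0 < X := by rw [hX]; positivity
  rw [← hX] at hDφ
  have hXL : ∀ t : ℝ, t * (b : ℝ) ^ L / (q.totient * L) = t * (X / L) := by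
    intro t
    rw [hX]
    field_simp
  constructor
  · -- the upper bound
    obtain ⟨J, hJ1, hJ2, hJ3, hJ4, hJ5⟩ := chooseJ (b := b) (E := B) (M := 1) (K := L) hb (by omega) (by omega)
    have hJc : 1 * (2 ^ 2 ^ J) ^ c ≤ b ^ (L / 4) :=
      (Nat.mul_le_mul_left _ (Nat.pow_le_pow_right (by positivity) (by omega))).trans hJ1
    have hPup := (Pq_bounds (b := b) (q := q) (J := J) (E := 64 * B + 1) hb hqc (by
      calc q ≤ b ^ L := hqL
        _ ≤ (2 ^ 2 ^ J) ^ (64 * B) := hJ3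
        _ < (2 ^ 2 ^ J) ^ (64 * B + 1) := Nat.pow_lt_pow_right (by omega) (by omega))).1
    have hmJ := (hmer J).2
    have h2J : (L : ℝ) ≤ 64 * B * 2 ^ J := by
      have h3 : 2 ^ L ≤ 2 ^ (64 * B * 2 ^ J) := by
        calc 2 ^ L ≤ b ^ L := Nat.pow_le_pow_left hb _
          _ ≤ (2 ^ 2 ^ J) ^ (64 * B) := hJ3
          _ = _ := by rw [← pow_mul]; congr 1; ring
      exact_mod_cast (Nat.pow_le_pow_iff_right (by norm_num : 1 < 2)).1 h3
    have h2J0 : (0 : ℝ) < 2 ^ J := by positivity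
    have hinv : 1 / (2 : ℝ) ^ J ≤ 64 * B / L := by
      rw [div_le_div_iff₀ h2J0 hLpos]
      linarith
    have hP3 : Pq b q J * (q.totient / q) ≤ 128 * b * C1 * B / L := by
      calc Pq b q J * (q.totient / q) ≤ 2 * b * ∏ l ∈ (range (2 ^ 2 ^ J)).filter Nat.Prime, (1 - (1 : ℝ) / l) := hPup
        _ ≤ 2 * b * (C1 / 2 ^ J) := mul_le_mul_of_nonneg_left hmJ (by positivity)
        _ = 2 * b * C1 * (1 / 2 ^ J) := by ring
        _ ≤ 2 * b * C1 * (64 * B / L) := mul_le_mul_of_nonneg_left hinv (by positivity)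
        _ = _ := by ring
    have hone : ∀ e : ℕ, ((FE b N L x e q a J).card : ℝ) ≤ C0 * (X / L) := by
      intro e
      refine (hsieve e J hJc).2.trans ?_
      rw [mul_assoc 2, hXP J, ← hX]
      have h4 : X * (Pq b q J * (q.totient / q)) ≤ X * (128 * b * C1 * B / L) :=
        mul_le_mul_of_nonneg_left hP3 hX0.le
      have h5 : X / (L : ℝ) ^ 3 ≤ X / L := by
        apply div_le_div_of_nonneg_left hX0.le hLpos
        calc (L : ℝ) = L ^ 1 := (pow_one _).symm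
          _ ≤ L ^ 3 := pow_le_pow_right₀ hL1R (by norm_num)
      have h6 : C0 * (X / L) = 2 * (X * (128 * b * C1 * B / L)) + X / L := by
        rw [hC0]
        ring
      linarith
    have hcard : (RC b N L x q a B).ncard ≤ ∑ e ∈ range b, (FE b N L x e q a J).card := by
      refine (Set.ncard_le_ncard (FE_up hb hN h1 hJ4) (Finset.finite_toSet _)).trans ?_
      rw [Set.ncard_coe_finset]
      exact card_biUnion_le
    calc ((RC b N L x q a B).ncard : ℝ) ≤ ∑ e ∈ range b, ((FE b N L x e q a J).card : ℝ) := by exact_mod_cast hcard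
      _ ≤ ∑ _e ∈ range b, C0 * (X / L) := sum_le_sum fun e _ => hone e
      _ = b * C0 * (X / L) := by
          rw [sum_const, card_range, nsmul_eq_mul]
          ring
      _ = _ := (hXL _).symm
  · -- the lower bound
    intro hlead
    obtain ⟨J, hJ1, hJ2, hJ3, hJ4, hJ5⟩ := chooseJ (b := b) (E := c) (M := 1) (K := L) hb hc (by omega)
    have hPlo := (Pq_bounds (b := b) (q := q) (J := J) (E := B) hb hqc (by
      rw [hB]
      calc q ≤ b ^ L := hqL
        _ ≤ (2 ^ 2 ^ J) ^ (64 * c) := hJ3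
        _ < (2 ^ 2 ^ J) ^ (64 * c + 1) := Nat.pow_lt_pow_right (by omega) (by omega))).2
    have hmJ := (hmer J).1
    have h2J : (2 : ℝ) ^ J ≤ b * L := by exact_mod_cast hJ5
    have h2J0 : (0 : ℝ) < 2 ^ J := by positivity
    have hP3 : 4 * c0 / L ≤ Pq b q J * (q.totient / q) := by
      refine le_trans ?_ hPlo
      have h4 : c1 / (b * L) ≤ c1 / 2 ^ J := div_le_div_of_nonneg_left hc1.le h2J0 h2J
      calc 4 * c0 / L = (1 / 2 : ℝ) ^ B * (c1 / (b * L)) := by
            rw [hc0]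
            field_simp
        _ ≤ (1 / 2 : ℝ) ^ B * (c1 / 2 ^ J) := mul_le_mul_of_nonneg_left h4 (by positivity)
        _ ≤ _ := mul_le_mul_of_nonneg_left hmJ (by positivity)
    have hlow := (hsieve 1 J hJ1).1
    have h5 : (b : ℝ) ^ L / q / 2 * Pq b q J = X * (Pq b q J * (q.totient / q)) / 2 := by
      rw [hX, ← hXP J]
      ring
    have h6 : X * (4 * c0 / L) ≤ X * (Pq b q J * (q.totient / q)) := mul_le_mul_of_nonneg_left hP3 hX0.le
    have h7 : 2 ^ J * Dl b L (b ^ (L / 4)) q ≤ (b * L) * (X / (L : ℝ) ^ 3) :=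
      mul_le_mul h2J hDφ (Dl_nonneg _ _ _ _) (by positivity)
    have h8 : (b * L) * (X / (L : ℝ) ^ 3) = (b / L) * (X / L) := by
      field_simp
    have h9 : (b : ℝ) / L ≤ c0 := by
      rw [div_le_iff₀ hLpos]
      rw [div_le_iff₀ hc00] at f3
      linarith
    have h10 : (b / L) * (X / L) ≤ c0 * (X / L) := mul_le_mul_of_nonneg_right h9 (by positivity)
    have h11 : X * (4 * c0 / L) / 2 = 2 * (c0 * (X / L)) := by ring
    have h12 : c0 * (X / L) ≤ ((FE b N L x 1 q a J).card : ℝ) := by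
      rw [h5] at hlow
      rw [h8] at h7
      linarith
    rw [hXL]
    refine h12.trans ?_
    rw [Nat.cast_le, ← Set.ncard_coe_finset, hB]
    exact Set.ncard_le_ncard (FE_low hb hN h1 h2 hlead ha hJ3) (RC_fin _ _ _ _ _ _ _)

/-- the palindromic primes with `2N+1` digits and prescribed leading digits in a residue class -/
def RP (b N L x q a : ℕ) : Set ℕ := {n | n < b ^ (2 * N + 1) ∧ (Nat.digits b n).reverse = Nat.digits b n ∧
  n / b ^ (N + L + 1) = x / b ^ (N + L + 1) ∧ n ≡ a [MOD q] ∧ n.Prime}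

lemma RP_sub {b N L x q a B : ℕ} (hb : 2 ≤ b) (hB : 1 ≤ B) (hN : L < N) (h1 : b ^ (2 * N) ≤ x) :
    RP b N L x q a ⊆ RC b N L x q a B := by
  intro n hn
  obtain ⟨g1, g2, g3, g4, g5⟩ := hn
  have g7 : b ^ (2 * N) ≤ n := by
    have e1 : b ^ (N - L - 1) ≤ x / b ^ (N + L + 1) := by
      rw [Nat.le_div_iff_mul_le (by positivity), ← pow_add]
      rwa [show N - L - 1 + (N + L + 1) = 2 * N by omega]
    rw [← g3, Nat.le_div_iff_mul_le (by positivity), ← pow_add,
      show N - L - 1 + (N + L + 1) = 2 * N by omega] at e1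
    exact e1
  refine ⟨g1, g2, g3, g4, ?_, ?_⟩
  · intro p hp hd
    rw [(Nat.prime_dvd_prime_iff_eq hp g5).1 hd]
    calc b ^ L < b ^ (2 * N) := Nat.pow_lt_pow_right (by omega) (by omega)
      _ ≤ n := g7
      _ ≤ n ^ B := Nat.le_self_pow (by omega) _
  · rw [Nat.primeFactorsList_prime g5, List.length_singleton, one_mul]
    nlinarith

end Pool.Agent.R471.PP
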