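import Pool.Agent.R471.PP.Cls2
/-!
Palindromes in residue classes: the final form.
-/
set_option autoImplicit false

namespace Pool.Agent.R471.PP

open Finset

open Classical in
/-- **Palindromes in residue classes**, the final form. -/
theorem classes' {b : ℕ} (hb : 2 ≤ b) (A : ℕ) : ∃ c C : ℝ, 0 < c ∧ 0 < C ∧ ∃ B L₀ : ℕ, ∀ L : ℕ, L₀ ≤ L →
    ∃ E : Finset ℕ, (E.card : ℝ) * (L : ℝ) ^ A ≤ (b : ℝ) ^ (L / 5) ∧ (∀ q ∈ E, (L : ℝ) ^ A < q) ∧
    ∀ q a : ℕ, q ≤ b ^ (L / 5) → q.Coprime (2 * b) → q ∉ E → a.Coprime q →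
    ∀ N x : ℕ, L < N → b ^ (2 * N) ≤ x → x < b ^ (2 * N + 1) →
    ((((range (b ^ (2 * N + 1))).filter (fun n => b ^ (2 * N) ≤ n ∧ (Nat.digits b n).reverse = Nat.digits b n ∧
      n / b ^ (N + L + 1) = x / b ^ (N + L + 1) ∧ n ≡ a [MOD q] ∧
      ∀ p : ℕ, p.Prime → p ∣ n → b ^ L < p ^ B)).card : ℝ) ≤ C * (b : ℝ) ^ L / (q.totient * L)) ∧
    ((((range (b ^ (2 * N + 1))).filter (fun n => b ^ (2 * N) ≤ n ∧ (Nat.digits b n).reverse = Nat.digits b n ∧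
      n / b ^ (N + L + 1) = x / b ^ (N + L + 1) ∧ n ≡ a [MOD q] ∧ n.Prime)).card : ℝ) ≤
        C * (b : ℝ) ^ L / (q.totient * L)) ∧
    ((x / b ^ (2 * N)).Coprime b → c * (b : ℝ) ^ L / (q.totient * L) ≤
      (((range (b ^ (2 * N + 1))).filter (fun n => b ^ (2 * N) ≤ n ∧ (Nat.digits b n).reverse = Nat.digits b n ∧
      n / b ^ (N + L + 1) = x / b ^ (N + L + 1) ∧ n ≡ a [MOD q] ∧
      (∀ p : ℕ, p.Prime → p ∣ n → b ^ L < p ^ B) ∧ n.primeFactorsList.length * L ≤ B * (2 * N + 1))).card : ℝ)) := by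
  obtain ⟨c, C, hc, hC, B, L₀, hB, h⟩ := classes hb A
  refine ⟨c, C, hc, hC, B, L₀, fun L hL => ?_⟩
  obtain ⟨E, h1, h2, h3⟩ := h L hL
  refine ⟨E, h1, h2, fun q a hq hqc hqE ha N x hN hx1 hx2 => ?_⟩
  obtain ⟨h4, h5⟩ := h3 q hq hqc hqE a ha N x hN hx1 hx2
  have hge : ∀ n : ℕ, n / b ^ (N + L + 1) = x / b ^ (N + L + 1) → b ^ (2 * N) ≤ n := by
    intro n g3
    have e1 : b ^ (N - L - 1) ≤ x / b ^ (N + L + 1) := by
      rw [Nat.le_div_iff_mul_le (by positivity), ← pow_add]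
      rwa [show N - L - 1 + (N + L + 1) = 2 * N by omega]
    rw [← g3, Nat.le_div_iff_mul_le (by positivity), ← pow_add,
      show N - L - 1 + (N + L + 1) = 2 * N by omega] at e1
    exact e1
  refine ⟨le_trans ?_ h4, le_trans ?_ h4, fun hlead => (h5 hlead).trans ?_⟩
  · rw [← Set.ncard_coe_finset, Nat.cast_le]
    apply Set.ncard_le_ncard _ (RC_fin _ _ _ _ _ _ _)
    intro n hn
    rw [mem_coe, mem_filter, mem_range] at hn
    obtain ⟨g1, g2, g3, g4, g5, g6⟩ := hn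
    have hn0 : n ≠ 0 := by
      have : 0 < b ^ (2 * N) := by positivity
      omega
    exact ⟨g1, g3, g4, g5, g6, few_of hb (by omega) hn0 g1 fun p hpm =>
      g6 p (Nat.prime_of_mem_primeFactorsList hpm) (Nat.dvd_of_mem_primeFactorsList hpm)⟩
  · rw [← Set.ncard_coe_finset, Nat.cast_le]
    apply Set.ncard_le_ncard _ (RC_fin _ _ _ _ _ _ _)
    refine Set.Subset.trans ?_ (RP_sub hb hB hN hx1)
    intro n hn
    rw [mem_coe, mem_filter, mem_range] at hn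
    obtain ⟨g1, g2, g3, g4, g5, g6⟩ := hn
    exact ⟨g1, g3, g4, g5, g6⟩
  · rw [← Set.ncard_coe_finset, Nat.cast_le]
    apply Set.ncard_le_ncard _ (Finset.finite_toSet _)
    intro n hn
    obtain ⟨g1, g2, g3, g4, g5, g6⟩ := hn
    rw [mem_coe, mem_filter, mem_range]
    exact ⟨g1, hge n g3, g2, g3, g4, g5, g6⟩

end Pool.Agent.R471.PP
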