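import Pool.Agent.R471.PP.Main
/-!
Values of polynomials at palindromes: the final form.
-/
set_option autoImplicit false

namespace Pool.Agent.R471.PP

open Finset Filter Topology Polynomial

/-- an admissible leading digit -/
lemma exists_lead {b : ℕ} (hb : 2 ≤ b) (F : ℤ[X])
    (hloc : ∀ p : ℕ, p.Prime → ∃ n : ℕ, ¬ (p : ℤ) ∣ (n : ℤ) * F.eval (n : ℤ)) :
    ∃ d : ℕ, 1 ≤ d ∧ d < b ∧ IsCoprime ((d : ℤ) * F.eval (d : ℤ)) (b : ℤ) := by
  classical
  obtain ⟨n0, hn0⟩ := exists_class (fun p n => (p : ℤ) ∣ (n : ℤ) * F.eval (n : ℤ)) (fun p n => eval_mod F p n)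
    b.primeFactors (fun p hp => Nat.prime_of_mem_primeFactors hp) (by
      intro p hp
      have hpp := Nat.prime_of_mem_primeFactors hp
      obtain ⟨r0, hr0⟩ := hloc p hpp
      have h6 : r0 % p ∉ (range p).filter (fun n : ℕ => (p : ℤ) ∣ (n : ℤ) * F.eval (n : ℤ)) := by
        intro hmem
        rw [mem_filter] at hmem
        exact hr0 ((eval_mod F p r0).2 hmem.2)
      have h8 : (range p).filter (fun n : ℕ => (p : ℤ) ∣ (n : ℤ) * F.eval (n : ℤ)) ⊂ range p := by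
        refine ⟨filter_subset _ _, fun hsub => h6 (hsub (mem_range.2 (Nat.mod_lt _ hpp.pos)))⟩
      have h9 := card_lt_card h8
      rw [card_range] at h9
      refine lt_of_le_of_lt (le_of_eq ?_) h9
      unfold nu
      congr)
  have hkey : ∀ p : ℕ, p.Prime → p ∣ b → ¬ (p : ℤ) ∣ ((n0 % b : ℕ) : ℤ) * F.eval ((n0 % b : ℕ) : ℤ) := by
    intro p hp hpb h
    apply hn0 p (Nat.mem_primeFactors.2 ⟨hp, hpb, by omega⟩)
    rw [eval_mod] at h ⊢
    rwa [Nat.mod_mod_of_dvd _ hpb] at h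
  refine ⟨n0 % b, ?_, Nat.mod_lt _ (by omega), ?_⟩
  · rcases Nat.eq_zero_or_pos (n0 % b) with h0 | h0
    · exfalso
      apply hkey b.minFac (Nat.minFac_prime (by omega)) (Nat.minFac_dvd b)
      rw [h0]
      simp
    · exact h0
  · rw [Int.isCoprime_iff_gcd_eq_one]
    by_contra hcon
    obtain ⟨p, hp, h1, h2⟩ := Nat.Prime.not_coprime_iff_dvd.1 hcon
    rw [Int.natAbs_natCast] at h2
    exact hkey p hp h2 (Int.natCast_dvd.2 h1)

open Classical in
/-- **Polynomial values at palindromes.** -/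
theorem final {b : ℕ} (hb : 2 ≤ b) (F : ℤ[X])
    (hloc : ∀ p : ℕ, p.Prime → ∃ n : ℕ, ¬ (p : ℤ) ∣ (n : ℤ) * F.eval (n : ℤ)) :
    ∃ c : ℝ, 0 < c ∧ ∃ B N₀ : ℕ,
    (∀ N : ℕ, N₀ ≤ N → c * (b : ℝ) ^ N / (N : ℝ) ^ B ≤ (((range (b ^ (2 * N + 1))).filter (fun n =>
      b ^ (2 * N) ≤ n ∧ (Nat.digits b n).reverse = Nat.digits b n ∧ F.eval (n : ℤ) ≠ 0 ∧
      (∀ p : ℕ, p.Prime → (p : ℤ) ∣ (n : ℤ) * F.eval (n : ℤ) → b ^ N < p ^ B) ∧
      n.primeFactorsList.length ≤ B ∧ (F.eval (n : ℤ)).natAbs.primeFactorsList.length ≤ B)).card : ℝ)) ∧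
    (∀ L N x : ℕ, N₀ ≤ L → L < N → b ^ (2 * N) ≤ x → x < b ^ (2 * N + 1) →
      IsCoprime (((x / b ^ (2 * N) : ℕ) : ℤ) * F.eval ((x / b ^ (2 * N) : ℕ) : ℤ)) (b : ℤ) →
      c * (b : ℝ) ^ L / (L : ℝ) ^ B ≤ (((range (b ^ (2 * N + 1))).filter (fun n =>
        (Nat.digits b n).reverse = Nat.digits b n ∧ n / b ^ (N + L + 1) = x / b ^ (N + L + 1) ∧
        F.eval (n : ℤ) ≠ 0 ∧
        (∀ p : ℕ, p.Prime → (p : ℤ) ∣ (n : ℤ) * F.eval (n : ℤ) → b ^ L < p ^ B) ∧
        n.primeFactorsList.length * L ≤ B * N ∧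
        (F.eval (n : ℤ)).natAbs.primeFactorsList.length * L ≤ B * N)).card : ℝ)) := by
  have hodd : Even b ∨ Odd (F.eval 1) := by
    right
    obtain ⟨n, hn⟩ := hloc 2 Nat.prime_two
    have h1 : ¬ Even ((n : ℤ) * F.eval (n : ℤ)) := fun h => hn (by exact_mod_cast h.two_dvd)
    rw [Int.not_even_iff_odd, Int.odd_mul] at h1
    have h4 : (n : ℤ) - 1 ∣ F.eval (n : ℤ) - F.eval 1 := Polynomial.sub_dvd_eval_sub _ _ _
    have h5 : (2 : ℤ) ∣ (n : ℤ) - 1 := (h1.1.sub_odd odd_one).two_dvd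
    have h6 : Even (F.eval (n : ℤ) - F.eval 1) := even_iff_two_dvd.2 (h5.trans h4)
    have h7 := h1.2.sub_even h6
    rwa [sub_sub_cancel] at h7
  obtain ⟨c, hc, B, L₀, hmain⟩ := polyvals hb F hodd (fun p hp _ => hloc p hp)
  obtain ⟨d, hd1, hd2, hd3⟩ := exists_lead hb F hloc
  have hbR : (2 : ℝ) ≤ b := by exact_mod_cast hb
  have hb0 : (0 : ℝ) < b := by linarith
  refine ⟨c / b, by positivity, 2 * B, L₀ + 2, ?_, ?_⟩
  · intro N hN
    obtain ⟨L, rfl⟩ : ∃ L, N = L + 1 := ⟨N - 1, by omega⟩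
    have hL1 : 1 ≤ L := by omega
    have hL1R : (1 : ℝ) ≤ L := by exact_mod_cast hL1
    have hx1 : b ^ (2 * (L + 1)) ≤ d * b ^ (2 * (L + 1)) := Nat.le_mul_of_pos_left _ hd1
    have hx2 : d * b ^ (2 * (L + 1)) < b ^ (2 * (L + 1) + 1) := by
      rw [pow_succ b (2 * (L + 1)), mul_comm]
      exact Nat.mul_lt_mul_of_pos_left hd2 (by positivity)
    have hx3 : d * b ^ (2 * (L + 1)) / b ^ (2 * (L + 1)) = d := Nat.mul_div_cancel _ (by positivity)
    have h := hmain L (L + 1) (d * b ^ (2 * (L + 1))) (by omega) (by omega) hx1 hx2 (by rw [hx3]; exact hd3)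
    have e1 : c / b * (b : ℝ) ^ (L + 1) / ((L + 1 : ℕ) : ℝ) ^ (2 * B) ≤ c * (b : ℝ) ^ L / (L : ℝ) ^ B := by
      have e2 : c / b * (b : ℝ) ^ (L + 1) = c * (b : ℝ) ^ L := by
        rw [pow_succ]
        field_simp
      rw [e2]
      apply div_le_div_of_nonneg_left (by positivity) (by positivity)
      calc (L : ℝ) ^ B ≤ ((L + 1 : ℕ) : ℝ) ^ B := by
            apply pow_le_pow_left₀ (by positivity)
            push_cast
            linarith
        _ ≤ ((L + 1 : ℕ) : ℝ) ^ (2 * B) := by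
            apply pow_le_pow_right₀ _ (by omega)
            push_cast
            linarith
    refine (e1.trans h).trans ?_
    rw [Nat.cast_le]
    apply card_le_card
    intro n hn
    rw [mem_filter, mem_range] at hn ⊢
    obtain ⟨h1, h2, h3, h4, h5, h6, h7⟩ := hn
    have e3 : L + 1 + L + 1 = 2 * (L + 1) := by ring
    rw [e3, hx3] at h3
    refine ⟨h1, ?_, h2, h4, ?_, ?_, ?_⟩
    · have h8 := Nat.div_mul_le_self n (b ^ (2 * (L + 1)))
      rw [h3] at h8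
      exact hx1.trans h8
    · intro p hp hpd
      have h8 := h5 p hp hpd
      calc b ^ (L + 1) ≤ b ^ (L * 2) := Nat.pow_le_pow_right (by omega) (by omega)
        _ = (b ^ L) ^ 2 := by rw [pow_mul]
        _ < (p ^ B) ^ 2 := Nat.pow_lt_pow_left h8 (by norm_num)
        _ = p ^ (2 * B) := by rw [← pow_mul, mul_comm]
    · by_contra hcon
      push Not at hcon
      have h8 : (2 * B + 1) * L ≤ n.primeFactorsList.length * L := Nat.mul_le_mul_right _ hcon
      nlinarith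
    · by_contra hcon
      push Not at hcon
      have h8 : (2 * B + 1) * L ≤ (F.eval (n : ℤ)).natAbs.primeFactorsList.length * L := Nat.mul_le_mul_right _ hcon
      nlinarith
  · intro L N x hL hLN h1 h2 h3
    have hL1 : 1 ≤ L := by omega
    have hL1R : (1 : ℝ) ≤ L := by exact_mod_cast hL1
    have h := hmain L N x (by omega) hLN h1 h2 h3
    have e1 : c / b * (b : ℝ) ^ L / (L : ℝ) ^ (2 * B) ≤ c * (b : ℝ) ^ L / (L : ℝ) ^ B := by
      apply div_le_div₀ (by positivity) _ (by positivity) (pow_le_pow_right₀ hL1R (by omega))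
      apply mul_le_mul_of_nonneg_right _ (by positivity)
      exact div_le_self hc.le (by linarith)
    refine (e1.trans h).trans ?_
    rw [Nat.cast_le]
    apply card_le_card
    intro n hn
    rw [mem_filter, mem_range] at hn ⊢
    obtain ⟨h4, h5, h6, h7, h8, h9, h10⟩ := hn
    refine ⟨h4, h5, h6, h7, fun p hp hpd => ?_, ?_, ?_⟩
    · exact (h8 p hp hpd).trans_le (Nat.pow_le_pow_right hp.pos (by omega))
    · nlinarith
    · nlinarith

end Pool.Agent.R471.PP
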