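import Pool.Agent.R471.PP.Lev
import Pool.Agent.R471.PP.Sieve
import Pool.Agent.Y816.PS.E
/-!
Values of polynomials at palindromes with prescribed leading digits: both the palindrome and the value have few prime
factors.
-/
set_option autoImplicit false

namespace Pool.Agent.R471.PP

open Finset Filter Topology Polynomial
open Pool.Agent.W89.PW (pv)
open Pool.Agent.W139.PX (pv_inj_unif)
open Pool.Agent.H410R2.ED (Pr)
open Pool.Agent.H623R3.PBT8 (coprime_pos)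
open Pool.Agent.Y816.PS (VV VV_eq VV_lt VV_pal VV_div VV_cop er er_nonneg cnth_bound aff_dvd n0 sg pv_sg pal_eq av av_out
  top_digit)

/-- the sieve conditions -/
def QF (b : ℕ) (F : ℤ[X]) (l n : ℕ) : Prop := ¬ l ∣ 2 * b ∧ (l : ℤ) ∣ (n : ℤ) * F.eval (n : ℤ)

lemma eval_mod (F : ℤ[X]) (p n : ℕ) :
    ((p : ℤ) ∣ (n : ℤ) * F.eval (n : ℤ)) ↔ ((p : ℤ) ∣ ((n % p : ℕ) : ℤ) * F.eval ((n % p : ℕ) : ℤ)) := by
  have h1 : (p : ℤ) ∣ (X * F).eval (n : ℤ) - (X * F).eval ((n % p : ℕ) : ℤ) := by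
    have h2 : ((n : ℤ) - ((n % p : ℕ) : ℤ)) ∣ (X * F).eval (n : ℤ) - (X * F).eval ((n % p : ℕ) : ℤ) :=
      Polynomial.sub_dvd_eval_sub _ _ _
    refine dvd_trans ?_ h2
    push_cast
    exact Int.dvd_self_sub_emod
  rw [eval_mul, eval_mul, eval_X, eval_X] at h1
  constructor
  · intro h
    exact (dvd_sub_right h).1 h1
  · intro h
    exact (dvd_sub_left h).1 h1

lemma QF_per (b : ℕ) {F : ℤ[X]} (hloc : ∀ p : ℕ, p.Prime → ¬ p ∣ 2 * b → ∃ r : ℕ, ¬ (p : ℤ) ∣ (r : ℤ) * F.eval (r : ℤ)) :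
    Per (QF b F) (F.natDegree + 1) := by
  classical
  refine ⟨fun p n => ?_, fun p hp => ?_⟩
  · unfold QF
    rw [eval_mod]
  · have h1 : nu (QF b F) p = ((range p).filter (fun r => QF b F p r)).card := by
      unfold nu
      congr
    rw [h1]
    by_cases hpb : p ∣ 2 * b
    · rw [card_eq_zero.2]
      · omega
      · rw [filter_eq_empty_iff]
        intro r _ h
        exact h.1 hpb
    · obtain ⟨r0, hr0⟩ := hloc p hp hpb
      have : Fact p.Prime := ⟨hp⟩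
      obtain ⟨G, hG⟩ : ∃ G : (ZMod p)[X], G = (X * F).map (Int.castRingHom (ZMod p)) := ⟨_, rfl⟩
      have hev : ∀ r : ℕ, G.eval (r : ZMod p) = (((r : ℤ) * F.eval (r : ℤ) : ℤ) : ZMod p) := by
        intro r
        have h2 : (r : ZMod p) = (Int.castRingHom (ZMod p)) (r : ℤ) := by simp
        rw [hG, h2, Polynomial.eval_map_apply, eval_mul, eval_X]
        simp
      have hG0 : G ≠ 0 := by
        intro h0
        apply hr0
        rw [← ZMod.intCast_zmod_eq_zero_iff_dvd, ← hev, h0, eval_zero]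
      calc ((range p).filter (fun r => QF b F p r)).card ≤ G.roots.toFinset.card := by
            apply card_le_card_of_injOn (fun r : ℕ => (r : ZMod p))
            · intro r hr
              rw [mem_coe, mem_filter] at hr
              rw [mem_coe, Multiset.mem_toFinset, mem_roots hG0, IsRoot.def, hev,
                ZMod.intCast_zmod_eq_zero_iff_dvd]
              exact hr.2.2
            · intro r hr r' hr' h
              rw [mem_coe, mem_filter, mem_range] at hr hr'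
              have h3 := (ZMod.natCast_eq_natCast_iff r r' p).1 h
              exact Nat.ModEq.eq_of_lt_of_lt h3 hr.1 hr'.1
        _ ≤ Multiset.card G.roots := Multiset.toFinset_card_le _
        _ ≤ G.natDegree := card_roots' _
        _ ≤ (X * F).natDegree := by rw [hG]; exact natDegree_map_le
        _ ≤ F.natDegree + 1 := by
            refine natDegree_mul_le.trans ?_
            have := natDegree_X_le (R := ℤ)
            omega

lemma VV_inj {b N L x : ℕ} (hb : 2 ≤ b) (hN : L + 1 ≤ N) : Function.Injective (VV b N L x) := by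
  intro m m' hm
  rw [VV_eq x hN, VV_eq x hN] at hm
  have h6 : sg b L m = sg b L m' :=
    Nat.eq_of_mul_eq_mul_left (by positivity) (Nat.add_left_cancel hm)
  apply pv_inj_unif hb
  rw [pv_sg, pv_sg, h6]

lemma VV_class {b N L x : ℕ} (hb : 2 ≤ b) (hN : L + 1 ≤ N) (q h : ℕ) (hq : q.Coprime (2 * b)) :
    |((((univ : Finset (Fin L → Fin b × Fin 1)).image (VV b N L x)).filter
      (fun n => n % q = h % q)).card : ℝ) - (b : ℝ) ^ L / q| ≤ er b L q := by
  have hq0 : 0 < q := coprime_pos hq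
  obtain ⟨r, hr⟩ := aff_dvd (N := N) (L := L) (n0 b N L x + h * (q - 1)) hq hq0
  have h1 := cnth_bound (s := b) (t := 1) (by omega) one_pos b L q r hq
  have h2 : ((b : ℝ) * (1 : ℕ)) ^ L = (b : ℝ) ^ L := by simp
  rw [h2] at h1
  rw [filter_image, card_image_of_injective _ (VV_inj hb hN)]
  have h3 : (univ : Finset (Fin L → Fin b × Fin 1)).filter (fun m => VV b N L x m % q = h % q) =
      univ.filter (fun m => pv b b 1 L m ≡ r [MOD q]) := by
    apply filter_congr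
    intro m _
    rw [← hr m]
    have e1 : n0 b N L x + h * (q - 1) + b ^ (N - L - 1) * sg b L m = VV b N L x m + h * (q - 1) := by
      rw [VV_eq x hN]
      ring
    rw [e1]
    generalize VV b N L x m = V
    obtain ⟨k, rfl⟩ : ∃ k, q = k + 1 := ⟨q - 1, by omega⟩
    rw [Nat.add_sub_cancel]
    have e2 : h + h * k ≡ 0 [MOD k + 1] := Nat.modEq_zero_iff_dvd.2 ⟨h, by ring⟩
    constructor
    · intro h4
      have h5 : V + h * k ≡ h + h * k [MOD k + 1] := Nat.ModEq.add_right _ h4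
      exact Nat.modEq_zero_iff_dvd.1 (h5.trans e2)
    · intro h4
      have h5 : V + h * k ≡ h + h * k [MOD k + 1] := (Nat.modEq_zero_iff_dvd.2 h4).trans e2.symm
      exact Nat.ModEq.add_right_cancel' _ h5
  rw [h3]
  exact h1

/-- the last digit of the palindrome is the first digit of `x` -/
lemma VV_mod {b N L x : ℕ} (hb : 2 ≤ b) (h : L + 1 ≤ N) (hx : x < b ^ (2 * N + 1)) (m : Fin L → Fin b × Fin 1) :
    ((b : ℤ)) ∣ (VV b N L x m : ℤ) - ((x / b ^ (2 * N) : ℕ) : ℤ) := by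
  unfold VV Pool.Agent.Y816.PS.pal
  rw [sum_range_succ']
  have h1 : N - 0 + (0 - N) = N := by omega
  rw [h1, av_out m (by omega), top_digit hb hx, pow_zero, mul_one]
  have h2 : b ∣ ∑ k ∈ range (2 * N), av b N L x m (N - (k + 1) + (k + 1 - N)) * b ^ (k + 1) :=
    dvd_sum fun k _ => dvd_mul_of_dvd_right (dvd_pow_self b (by omega)) _
  obtain ⟨k, hk⟩ := h2
  rw [hk]
  push_cast
  exact ⟨k, by ring⟩

/-- the prime factors of the palindrome and of the value -/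
lemma member {b N L x κ M J : ℕ} {F : ℤ[X]} (hb : 2 ≤ b) (hN : L + 1 ≤ N)
    (h2 : x < b ^ (2 * N + 1)) (h3 : IsCoprime (((x / b ^ (2 * N) : ℕ) : ℤ) * F.eval ((x / b ^ (2 * N) : ℕ) : ℤ)) (b : ℤ))
    (hodd : Even b ∨ Odd (F.eval 1))
    (hM : ∀ p : ℕ, p.Prime → p ≤ 2 * κ → ¬ p ∣ 2 * b → p ∣ M) {n1 : ℕ}
    (hn1 : ∀ p : ℕ, p.Prime → p ≤ 2 * κ → ¬ p ∣ 2 * b → ¬ QF b F p n1)
    (m : Fin L → Fin b × Fin 1) (hm1 : VV b N L x m % M = n1 % M)
    (hm2 : ∀ l ∈ Pr κ J, ¬ l ∣ b → ¬ QF b F l (VV b N L x m)) :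
    ∀ p : ℕ, p.Prime → (p : ℤ) ∣ (VV b N L x m : ℤ) * F.eval (VV b N L x m : ℤ) → 2 ^ 2 ^ J ≤ p := by
  intro p hp hd
  have hpZ : Prime (p : ℤ) := Nat.prime_iff_prime_int.1 hp
  have hc1 : (x / b ^ (2 * N)).Coprime b := by
    rw [← Nat.isCoprime_iff_coprime]
    exact h3.of_mul_left_left
  have hcop := VV_cop hb hN h2 hc1 m
  have hmod := VV_mod hb hN h2 m
  have hpb : ¬ p ∣ b := by
    intro hpb
    have hpbZ : (p : ℤ) ∣ (b : ℤ) := Int.natCast_dvd_natCast.2 hpb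
    have h4 : (VV b N L x m : ℤ) - ((x / b ^ (2 * N) : ℕ) : ℤ) ∣
        (X * F).eval (VV b N L x m : ℤ) - (X * F).eval ((x / b ^ (2 * N) : ℕ) : ℤ) := Polynomial.sub_dvd_eval_sub _ _ _
    have h5 := (hpbZ.trans hmod).trans h4
    rw [eval_mul, eval_mul, eval_X, eval_X] at h5
    have h6 := (dvd_sub_right hd).1 h5
    have h7 := h3.isUnit_of_dvd' h6 hpbZ
    exact hpZ.not_isUnit h7
  have hp2 : p ≠ 2 := by
    rintro rfl
    rcases hodd with hbe | hoe
    · exact hpb hbe.two_dvd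
    · have hVo : Odd (VV b N L x m) := by
        have : (VV b N L x m).Coprime 2 := hcop.coprime_dvd_right (dvd_mul_right 2 b)
        exact Nat.coprime_two_left.1 this.symm
      have hVoZ : Odd ((VV b N L x m : ℕ) : ℤ) := by exact_mod_cast hVo
      have h4 : (VV b N L x m : ℤ) - 1 ∣ F.eval (VV b N L x m : ℤ) - F.eval 1 := Polynomial.sub_dvd_eval_sub _ _ _
      have h5 : (2 : ℤ) ∣ (VV b N L x m : ℤ) - 1 := (hVoZ.sub_odd odd_one).two_dvd
      have h6 : Even (F.eval (VV b N L x m : ℤ) - F.eval 1) := even_iff_two_dvd.2 (h5.trans h4)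
      have h7 : Odd (F.eval (VV b N L x m : ℤ)) := by
        have h8 := h6.add_odd hoe
        rwa [sub_add_cancel] at h8
      have h8 : Odd ((VV b N L x m : ℤ) * F.eval (VV b N L x m : ℤ)) := hVoZ.mul h7
      have h9 : Even ((VV b N L x m : ℤ) * F.eval (VV b N L x m : ℤ)) := even_iff_two_dvd.2 (by exact_mod_cast hd)
      exact (Int.not_even_iff_odd.2 h8) h9
  have hp2b : ¬ p ∣ 2 * b := by
    intro h
    rcases (Nat.Prime.dvd_mul hp).1 h with h | h
    · exact hp2 ((Nat.prime_dvd_prime_iff_eq hp Nat.prime_two).1 h)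
    · exact hpb h
  have hq : QF b F p (VV b N L x m) := ⟨hp2b, hd⟩
  by_contra hcon
  push Not at hcon
  rcases Nat.lt_or_ge (2 * κ) p with h4 | h4
  · exact hm2 p (by
      unfold Pr
      rw [mem_filter, mem_range]
      exact ⟨hcon, hp, h4⟩) hpb hq
  · have h5 := hM p hp h4 hp2b
    apply hn1 p hp h4 hp2b
    have hper : ∀ n, QF b F p n ↔ QF b F p (n % p) := by
      intro n
      unfold QF
      rw [eval_mod]
    rw [hper]
    rw [hper, ← Nat.mod_mod_of_dvd _ h5, hm1, Nat.mod_mod_of_dvd _ h5] at hq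
    exact hq

/-- the size of the values -/
lemma eval_lt {b : ℕ} (hb : 2 ≤ b) (F : ℤ[X]) : ∃ A : ℕ, 1 ≤ A ∧ ∀ N n : ℕ, 1 ≤ N → n < b ^ (2 * N + 1) →
    (F.eval (n : ℤ)).natAbs < b ^ (A * N) := by
  obtain ⟨S, hS⟩ : ∃ S : ℕ, S = ∑ i ∈ range (F.natDegree + 1), (F.coeff i).natAbs := ⟨_, rfl⟩
  refine ⟨S + 3 * F.natDegree + 1, by omega, fun N n hN hn => ?_⟩
  have h1 : (F.eval (n : ℤ)).natAbs ≤ S * (b ^ (3 * N)) ^ F.natDegree := by
    rw [Polynomial.eval_eq_sum_range]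
    refine (Int.natAbs_sum_le _ _).trans ?_
    rw [hS, sum_mul]
    refine sum_le_sum fun i hi => ?_
    rw [Int.natAbs_mul, Int.natAbs_pow, Int.natAbs_natCast]
    apply Nat.mul_le_mul_left
    rw [mem_range] at hi
    have h2 : n ≤ b ^ (3 * N) := hn.le.trans (Nat.pow_le_pow_right (by omega) (by omega))
    calc n ^ i ≤ (b ^ (3 * N)) ^ i := Nat.pow_le_pow_left h2 i
      _ ≤ (b ^ (3 * N)) ^ F.natDegree := Nat.pow_le_pow_right (by positivity) (by omega)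
  have h3 : S < b ^ (S * N + N) := by
    calc S < 2 ^ S := Nat.lt_two_pow_self
      _ ≤ b ^ S := Nat.pow_le_pow_left hb _
      _ ≤ b ^ (S * N + N) := Nat.pow_le_pow_right (by omega) (by nlinarith)
  calc (F.eval (n : ℤ)).natAbs ≤ S * (b ^ (3 * N)) ^ F.natDegree := h1
    _ < b ^ (S * N + N) * (b ^ (3 * N)) ^ F.natDegree := Nat.mul_lt_mul_of_pos_right h3 (by positivity)
    _ = b ^ ((S + 3 * F.natDegree + 1) * N) := by
        rw [← pow_mul, ← pow_add]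
        congr 1
        ring

lemma few_of {b L B T n : ℕ} (hb : 2 ≤ b) (hB : B ≠ 0) (h1 : n ≠ 0) (h2 : n < b ^ T)
    (hp : ∀ p ∈ n.primeFactorsList, b ^ L < p ^ B) : n.primeFactorsList.length * L ≤ B * T := by
  have h3 : ∀ l : List ℕ, (∀ p ∈ l, b ^ L < p ^ B) → (b ^ L) ^ l.length ≤ l.prod ^ B := by
    intro l
    induction l with
    | nil => intro _; simp
    | cons p l ih =>
      intro h
      rw [List.length_cons, List.prod_cons, pow_succ, mul_pow, mul_comm]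
      exact Nat.mul_le_mul (h p (by simp)).le (ih fun q hq => h q (by simp [hq]))
  have h4 := h3 _ hp
  rw [Nat.prod_primeFactorsList h1, ← pow_mul] at h4
  have h5 : n ^ B < (b ^ T) ^ B := Nat.pow_lt_pow_left h2 hB
  rw [← pow_mul] at h5
  have h6 := (Nat.pow_lt_pow_iff_right (by omega : 1 < b)).1 (h4.trans_lt h5)
  nlinarith

open Classical in
/-- **Polynomial values at palindromes with prescribed leading digits.** -/
theorem polyvals {b : ℕ} (hb : 2 ≤ b) (F : ℤ[X]) (hodd : Even b ∨ Odd (F.eval 1))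
    (hloc : ∀ p : ℕ, p.Prime → ¬ p ∣ 2 * b → ∃ r : ℕ, ¬ (p : ℤ) ∣ (r : ℤ) * F.eval (r : ℤ)) :
    ∃ c : ℝ, 0 < c ∧ ∃ B L₀ : ℕ, ∀ L N x : ℕ, L₀ ≤ L → L < N →
    b ^ (2 * N) ≤ x → x < b ^ (2 * N + 1) →
    IsCoprime (((x / b ^ (2 * N) : ℕ) : ℤ) * F.eval ((x / b ^ (2 * N) : ℕ) : ℤ)) (b : ℤ) →
    c * (b : ℝ) ^ L / (L : ℝ) ^ B ≤ (((range (b ^ (2 * N + 1))).filter (fun n =>
      (Nat.digits b n).reverse = Nat.digits b n ∧ n / b ^ (N + L + 1) = x / b ^ (N + L + 1) ∧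
      F.eval (n : ℤ) ≠ 0 ∧
      (∀ p : ℕ, p.Prime → (p : ℤ) ∣ (n : ℤ) * F.eval (n : ℤ) → b ^ L < p ^ B) ∧
      n.primeFactorsList.length * L ≤ B * N ∧
      (F.eval (n : ℤ)).natAbs.primeFactorsList.length * L ≤ B * N)).card : ℝ) := by
  classical
  obtain ⟨κ, hκE⟩ : ∃ κ, κ = F.natDegree + 1 := ⟨_, rfl⟩
  have hκ : 1 ≤ κ := by omega
  have hκ4 : κ ≤ 2 ^ κ := Nat.lt_two_pow_self.le
  obtain ⟨c, hc, hsv⟩ := svG κ κ hκ hκ4
  obtain ⟨n1, hn1⟩ := Z_le κ
  obtain ⟨A, hA1, hA⟩ := eval_lt hb F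
  have hper : Per (QF b F) κ := by rw [hκE]; exact QF_per b hloc
  obtain ⟨Dm, hDm⟩ : ∃ Dm : Finset ℕ, Dm = (Icc 1 (2 * κ)).filter (fun p => p.Prime ∧ ¬ p ∣ 2 * b) := ⟨_, rfl⟩
  have hDmp : ∀ p ∈ Dm, p.Prime := fun p hp => by
    rw [hDm, mem_filter] at hp; exact hp.2.1
  obtain ⟨M, hM⟩ : ∃ M : ℕ, M = ∏ p ∈ Dm, p := ⟨_, rfl⟩
  have hM0 : 0 < M := by
    rw [hM]
    exact prod_pos fun p hp => (hDmp p hp).pos
  have hMc : M.Coprime (2 * b) := by
    rw [hM]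
    refine Nat.Coprime.prod_left fun p hp => (Nat.Prime.coprime_iff_not_dvd (hDmp p hp)).2 fun hd => ?_
    rw [hDm, mem_filter, mem_Icc] at hp
    exact hp.2.2 hd
  have hMp : ∀ p : ℕ, p.Prime → p ∣ M → p ≤ 2 * κ := by
    intro p hp hd
    rw [hM] at hd
    obtain ⟨q, hq, hpq⟩ := (Nat.Prime.prime hp).exists_mem_finset_dvd hd
    have h4 := (Nat.prime_dvd_prime_iff_eq hp (hDmp q hq)).1 hpq
    rw [hDm, mem_filter, mem_Icc] at hq
    omega
  have hMd : ∀ p : ℕ, p.Prime → p ≤ 2 * κ → ¬ p ∣ 2 * b → p ∣ M := by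
    intro p hp hp4 hpb
    rw [hM]
    exact dvd_prod_of_mem (fun p => p) (by
      rw [hDm, mem_filter, mem_Icc]
      exact ⟨⟨hp.one_le, hp4⟩, hp, hpb⟩)
  obtain ⟨r, hr⟩ := exists_class (QF b F) hper.per Dm hDmp (by
    intro p hp
    have hpp := hDmp p hp
    rw [hDm, mem_filter] at hp
    obtain ⟨r0, hr0⟩ := hloc p hpp hp.2.2
    have h6 : r0 % p ∉ (range p).filter (fun n => QF b F p n) := by
      intro hmem
      rw [mem_filter] at hmem
      exact hr0 ((eval_mod F p r0).2 hmem.2.2)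
    have h8 : (range p).filter (fun n => QF b F p n) ⊂ range p := by
      refine ⟨filter_subset _ _, fun hsub => h6 (hsub (mem_range.2 (Nat.mod_lt _ hpp.pos)))⟩
    have h9 := card_lt_card h8
    rw [card_range] at h9
    refine lt_of_le_of_lt (le_of_eq ?_) h9
    unfold nu
    congr)
  have hbR : (2 : ℝ) ≤ b := by exact_mod_cast hb
  have hb0 : (0 : ℝ) < b := by linarith
  have hMR : (0 : ℝ) < M := by exact_mod_cast hM0
  obtain ⟨B0, hB0⟩ : ∃ B0 : ℕ, B0 = 64 * c + 2 * n1 + 1 := ⟨_, rfl⟩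
  obtain ⟨B, hB⟩ : ∃ B : ℕ, B = B0 * (A + 3) := ⟨_, rfl⟩
  have hBB : B0 ≤ B := by rw [hB]; nlinarith
  obtain ⟨c0, hc0⟩ : ∃ c0 : ℝ, c0 = 1 / (4 * M * (b : ℝ) ^ (2 * n1)) := ⟨_, rfl⟩
  have hc00 : 0 < c0 := by rw [hc0]; positivity
  have e1 := er_finalK κ hb (2 * n1 + 3)
  have e2 : ∀ᶠ L : ℕ in atTop, 64 * (16 * c * (M + 1)) ≤ L := eventually_ge_atTop _
  have e3 : ∀ᶠ L : ℕ in atTop, 4 * M * (b : ℝ) ^ (2 * n1 + 1) ≤ (L : ℝ) :=
    tendsto_natCast_atTop_atTop.eventually_ge_atTop _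
  obtain ⟨L0, hL0⟩ := eventually_atTop.1 (e1.and (e2.and e3))
  refine ⟨c0, hc00, B, max L0 (B + 1), fun L N x hL hN h1 h2 h4 => ?_⟩
  obtain ⟨f1, f2, f3⟩ := hL0 L ((le_max_left _ _).trans hL)
  have hLB : B + 1 ≤ L := (le_max_right _ _).trans hL
  have hL1 : 1 ≤ L := by omega
  have hL1R : (1 : ℝ) ≤ L := by exact_mod_cast hL1
  have hLpos : (0 : ℝ) < L := by linarith
  obtain ⟨J, hJ1, hJ2, hJ3, -, hJ5⟩ := chooseJ (b := b) (E := c) (M := M) (K := L) hb hc (by omega)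
  obtain ⟨Y, hY⟩ : ∃ Y : ℕ, Y = ⌊(b : ℝ) ^ ((49 / 100 : ℝ) * L)⌋₊ := ⟨_, rfl⟩
  have hYle : M * (2 ^ 2 ^ J) ^ c ≤ Y := by
    refine hJ1.trans ?_
    rw [hY]
    apply Nat.le_floor
    push_cast
    rw [← Real.rpow_natCast]
    apply Real.rpow_le_rpow_of_exponent_le (by linarith)
    have : ((L / 4 : ℕ) : ℝ) ≤ (L : ℝ) / 4 := Nat.cast_div_le
    linarith
  have hmain := hsv b ((univ : Finset (Fin L → Fin b × Fin 1)).image (VV b N L x)) ((b : ℝ) ^ L) (er b L)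
    (by positivity) (er_nonneg b L) (fun q h hq => by
      have := VV_class (x := x) hb hN q h hq
      convert this) M hM0 hMc hMp (QF b F) hper r J Y hYle
  rw [← hY] at f1
  obtain ⟨P, hP⟩ : ∃ P : ℝ, P = ∏ l ∈ (Pr κ J).filter (fun l => ¬ l ∣ b), (1 - (nu (QF b F) l : ℝ) / l) :=
    ⟨_, rfl⟩
  rw [← hP] at hmain
  have hPlow := prod_low hκ hn1 b J hper
  rw [← hP] at hPlow
  have h2J : (2 : ℝ) ^ J ≤ b * L := by exact_mod_cast hJ5
  have h2J0 : (1 : ℝ) ≤ 2 ^ J := one_le_pow₀ (by norm_num)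
  -- lower bound of the product
  have hP1 : 1 ≤ P * (b * L) ^ (2 * n1) := by
    have hP0 : 0 < P := by
      by_contra hcon
      push Not at hcon
      have : P * (((2 : ℝ) ^ J) ^ n1) ^ 2 ≤ 0 := mul_nonpos_of_nonpos_of_nonneg hcon (by positivity)
      linarith
    refine hPlow.trans (mul_le_mul_of_nonneg_left ?_ hP0.le)
    rw [← pow_mul, mul_comm n1 2]
    exact pow_le_pow_left₀ (by positivity) h2J _
  have hcount : c0 * (b : ℝ) ^ L / (L : ℝ) ^ B ≤
      (b : ℝ) ^ L / M / 2 * P - 2 ^ J * ∑ q ∈ (Icc 1 Y).filter (fun q => q.Coprime (2 * b)),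
        (q.divisors.card : ℝ) ^ κ * er b L q := by
    have g1 : 2 ^ J * ∑ q ∈ (Icc 1 Y).filter (fun q => q.Coprime (2 * b)),
        (q.divisors.card : ℝ) ^ κ * er b L q ≤ (b * L) * ((b : ℝ) ^ L / (L : ℝ) ^ (2 * n1 + 3)) := by
      apply mul_le_mul h2J f1 (sum_nonneg fun q _ => mul_nonneg (by positivity) (er_nonneg _ _ _)) (by positivity)
    have g2 : (b * L) * ((b : ℝ) ^ L / (L : ℝ) ^ (2 * n1 + 3)) = b / (L : ℝ) ^ 2 * ((b : ℝ) ^ L / (L : ℝ) ^ (2 * n1)) := by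
      rw [pow_add]
      field_simp
    have g3 : 1 / ((b : ℝ) * L) ^ (2 * n1) ≤ P := by
      rw [div_le_iff₀ (by positivity)]
      exact hP1
    have g4 : (b : ℝ) ^ L / M / 2 * (1 / ((b : ℝ) * L) ^ (2 * n1)) = 2 * c0 * ((b : ℝ) ^ L / (L : ℝ) ^ (2 * n1)) := by
      rw [hc0, mul_pow]
      field_simp
      ring
    have g5 : (b : ℝ) ^ L / M / 2 * (1 / ((b : ℝ) * L) ^ (2 * n1)) ≤ (b : ℝ) ^ L / M / 2 * P :=
      mul_le_mul_of_nonneg_left g3 (by positivity)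
    have g6 : (b : ℝ) / (L : ℝ) ^ 2 ≤ c0 := by
      rw [hc0, div_le_div_iff₀ (by positivity) (by positivity), one_mul]
      have g7 : (L : ℝ) ≤ (L : ℝ) ^ 2 := by nlinarith
      calc (b : ℝ) * (4 * M * (b : ℝ) ^ (2 * n1)) = 4 * M * (b : ℝ) ^ (2 * n1 + 1) := by rw [pow_succ]; ring
        _ ≤ L := f3
        _ ≤ _ := g7
    have g8 : (b : ℝ) / (L : ℝ) ^ 2 * ((b : ℝ) ^ L / (L : ℝ) ^ (2 * n1)) ≤ c0 * ((b : ℝ) ^ L / (L : ℝ) ^ (2 * n1)) :=
      mul_le_mul_of_nonneg_right g6 (by positivity)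
    have g9 : c0 * (b : ℝ) ^ L / (L : ℝ) ^ B ≤ c0 * ((b : ℝ) ^ L / (L : ℝ) ^ (2 * n1)) := by
      rw [mul_div_assoc]
      apply mul_le_mul_of_nonneg_left _ hc00.le
      apply div_le_div_of_nonneg_left (by positivity) (by positivity)
      exact pow_le_pow_right₀ hL1R (by omega)
    rw [g2] at g1
    rw [g4] at g5
    linarith
  refine (hcount.trans hmain).trans ?_
  rw [Nat.cast_le]
  apply card_le_card
  intro n hn
  rw [mem_filter, mem_image] at hn
  obtain ⟨⟨m, _, rfl⟩, g1, g2⟩ := hn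
  have hmem : ∀ p : ℕ, p.Prime → (p : ℤ) ∣ (VV b N L x m : ℤ) * F.eval (VV b N L x m : ℤ) → 2 ^ 2 ^ J ≤ p :=
    member (J := J) hb hN h2 h4 hodd hMd (n1 := r) (fun p hp hp4 hpb => hr p (by
      rw [hDm, mem_filter, mem_Icc]
      exact ⟨⟨hp.one_le, hp4⟩, hp, hpb⟩)) m g1 (fun l hl hlb => g2 l hl hlb)
  have hlt : VV b N L x m < b ^ (2 * N + 1) := VV_lt hb m
  have hp0 : ∀ p : ℕ, p.Prime → (p : ℤ) ∣ (VV b N L x m : ℤ) * F.eval (VV b N L x m : ℤ) → b ^ L < p ^ B0 := by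
    intro p hpp hd
    have hz := hmem p hpp hd
    calc b ^ L ≤ (2 ^ 2 ^ J) ^ (64 * c) := hJ3
      _ ≤ p ^ (64 * c) := Nat.pow_le_pow_left hz _
      _ < p ^ B0 := Nat.pow_lt_pow_right hpp.one_lt (by omega)
  have hpB : ∀ p : ℕ, p.Prime → (p : ℤ) ∣ (VV b N L x m : ℤ) * F.eval (VV b N L x m : ℤ) → b ^ L < p ^ B :=
    fun p hpp hd => (hp0 p hpp hd).trans_le (Nat.pow_le_pow_right hpp.pos hBB)
  have hne : (VV b N L x m : ℤ) * F.eval (VV b N L x m : ℤ) ≠ 0 := by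
    intro h0
    have h5 := hpB 2 Nat.prime_two (by rw [h0]; exact dvd_zero _)
    have h6 : 2 ^ L ≤ b ^ L := Nat.pow_le_pow_left hb _
    have h7 := (Nat.pow_lt_pow_iff_right (by norm_num : 1 < 2)).1 (h6.trans_lt h5)
    omega
  have hV0 : VV b N L x m ≠ 0 := by
    intro h0
    apply hne
    rw [h0]
    simp
  have hF0 : F.eval (VV b N L x m : ℤ) ≠ 0 := by
    intro h0
    apply hne
    rw [h0, mul_zero]
  rw [mem_filter, mem_range]
  refine ⟨hlt, VV_pal hb hN h2 h1 m, VV_div hb hN h2 m, hF0, hpB, ?_, ?_⟩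
  · have h5 := few_of (T := 3 * N) hb (by omega : B0 ≠ 0) hV0
      (hlt.trans_le (Nat.pow_le_pow_right (by omega) (by omega))) (fun p hp => by
        have hpp := Nat.prime_of_mem_primeFactorsList hp
        have hd := Nat.dvd_of_mem_primeFactorsList hp
        exact hp0 p hpp ((Int.natCast_dvd_natCast.2 hd).mul_right _))
    refine h5.trans ?_
    rw [hB]
    have : B0 * (3 * N) ≤ B0 * ((A + 3) * N) := Nat.mul_le_mul_left _ (Nat.mul_le_mul_right _ (by omega))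
    linarith
  · have h5 := few_of (T := A * N) hb (by omega : B0 ≠ 0) (Int.natAbs_ne_zero.2 hF0)
      (hA N _ (by omega) hlt) (fun p hp => by
        have hpp := Nat.prime_of_mem_primeFactorsList hp
        have hd := Nat.dvd_of_mem_primeFactorsList hp
        exact hp0 p hpp ((Int.natCast_dvd.2 hd).mul_left _))
    refine h5.trans ?_
    rw [hB]
    have : B0 * (A * N) ≤ B0 * ((A + 3) * N) := Nat.mul_le_mul_left _ (Nat.mul_le_mul_right _ (by omega))
    linarith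

end Pool.Agent.R471.PP
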